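import Pool.Agent.Lib.MP_39df77_nt.OL.E1

/-!
# The mean value of the product of two Dirichlet series
-/

set_option autoImplicit false

open Complex MeasureTheory Set Filter Topology

namespace OL

/-- mean value of `A(t) conj B(t)`, `A`, `B` absolutely convergent Dirichlet series -/
theorem M1_mv {a b : ℕ → ℂ} {c : ℕ → ℝ} (hc : ∀ n, 0 ≤ c n) (ha : ∀ n, ‖a n‖ ≤ c n)
    (hb : ∀ n, ‖b n‖ ≤ c n) (hs : Summable c)
    (hs1 : Summable fun n : ℕ => (n + 1 : ℝ) * c n) {T : ℝ} (hT : 0 ≤ T) :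
    ‖(∫ t in (0 : ℝ)..T, (∑' n : ℕ, a n * ei (-(t * Real.log (n + 1 : ℝ)))) *
        (starRingEnd ℂ) (∑' n : ℕ, b n * ei (-(t * Real.log (n + 1 : ℝ))))) -
      T * ∑' n : ℕ, a n * (starRingEnd ℂ) (b n)‖ ≤
        4 * ((∑' n, c n) * ∑' n : ℕ, (n + 1 : ℝ) * c n) := by
  have hA : Summable fun n : ℕ => ‖a n‖ := hs.of_nonneg_of_le (fun n => norm_nonneg _) ha
  have hB : Summable fun n : ℕ => ‖b n‖ := hs.of_nonneg_of_le (fun n => norm_nonneg _) hb
  have hcb : ∀ p : ℕ × ℕ, ‖a p.1 * (starRingEnd ℂ) (b p.2)‖ ≤ c p.1 * c p.2 := by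
    intro p
    rw [norm_mul, Complex.norm_conj]
    exact mul_le_mul (ha _) (hb _) (norm_nonneg _) (hc _)
  -- product expansion
  have hprod : ∀ t : ℝ, (∑' n : ℕ, a n * ei (-(t * Real.log (n + 1 : ℝ)))) *
        (starRingEnd ℂ) (∑' n : ℕ, b n * ei (-(t * Real.log (n + 1 : ℝ)))) =
      ∑' p : ℕ × ℕ, (a p.1 * (starRingEnd ℂ) (b p.2)) *
        ei (t * (Real.log (p.2 + 1 : ℝ) - Real.log (p.1 + 1 : ℝ))) := by
    intro t
    have h2 : (starRingEnd ℂ) (∑' n : ℕ, b n * ei (-(t * Real.log (n + 1 : ℝ)))) =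
        ∑' n : ℕ, (starRingEnd ℂ) (b n) * ei (t * Real.log (n + 1 : ℝ)) := by
      rw [conj_tsum]
      congr 1
      funext n
      rw [map_mul, ei_conj, neg_neg]
    have n1 : Summable fun n : ℕ => ‖a n * ei (-(t * Real.log (n + 1 : ℝ)))‖ := by
      simpa [norm_mul, ei_norm] using hA
    have n2 : Summable fun n : ℕ => ‖(starRingEnd ℂ) (b n) * ei (t * Real.log (n + 1 : ℝ))‖ := by
      simpa [norm_mul, ei_norm] using hB
    rw [h2, tsum_mul_tsum_of_summable_norm n1 n2]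
    congr 1
    funext p
    have h3 : ei (t * (Real.log (p.2 + 1 : ℝ) - Real.log (p.1 + 1 : ℝ))) =
        ei (-(t * Real.log (p.1 + 1 : ℝ))) * ei (t * Real.log (p.2 + 1 : ℝ)) := by
      rw [← ei_add]
      congr 1
      ring
    rw [h3]
    ring
  have hcc : Summable fun p : ℕ × ℕ => c p.1 * c p.2 := hs.mul_of_nonneg hs hc hc
  -- integrate termwise
  have hint : HasSum (fun p : ℕ × ℕ => ∫ t in (0 : ℝ)..T, (a p.1 * (starRingEnd ℂ) (b p.2)) *
      ei (t * (Real.log (p.2 + 1 : ℝ) - Real.log (p.1 + 1 : ℝ))))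
      (∫ t in (0 : ℝ)..T, ∑' p : ℕ × ℕ, (a p.1 * (starRingEnd ℂ) (b p.2)) *
        ei (t * (Real.log (p.2 + 1 : ℝ) - Real.log (p.1 + 1 : ℝ)))) := by
    refine intervalIntegral.hasSum_integral_of_dominated_convergence
      (fun p _ => c p.1 * c p.2) (fun p => ?_) (fun p => ?_) ?_ ?_ ?_
    · refine (Continuous.aestronglyMeasurable ?_)
      exact continuous_const.mul (ei_cont.comp (by fun_prop))
    · refine Eventually.of_forall fun t _ => ?_
      rw [norm_mul, ei_norm, mul_one]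
      exact hcb p
    · exact Eventually.of_forall fun t _ => hcc
    · exact intervalIntegrable_const
    · refine Eventually.of_forall fun t _ => ?_
      refine Summable.hasSum (Summable.of_norm_bounded hcc fun p => ?_)
      rw [norm_mul, ei_norm, mul_one]
      exact hcb p
  -- the diagonal
  have hdiag : HasSum (fun p : ℕ × ℕ => (a p.1 * (starRingEnd ℂ) (b p.2)) *
      (if p.1 = p.2 then (T : ℂ) else 0)) (T * ∑' n : ℕ, a n * (starRingEnd ℂ) (b n)) := by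
    have hS : Summable fun p : ℕ × ℕ => (a p.1 * (starRingEnd ℂ) (b p.2)) *
        (if p.1 = p.2 then (T : ℂ) else 0) := by
      refine Summable.of_norm_bounded (hcc.mul_right T) fun p => ?_
      rw [norm_mul]
      refine mul_le_mul (hcb p) ?_ (norm_nonneg _) (mul_nonneg (hc _) (hc _))
      split_ifs
      · rw [Complex.norm_real, Real.norm_of_nonneg hT]
      · simpa using hT
    have h2 : ∑' p : ℕ × ℕ, (a p.1 * (starRingEnd ℂ) (b p.2)) *
        (if p.1 = p.2 then (T : ℂ) else 0) = T * ∑' n : ℕ, a n * (starRingEnd ℂ) (b n) := by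
      rw [hS.tsum_prod]
      have h3 : ∀ m : ℕ, ∑' n : ℕ, (a m * (starRingEnd ℂ) (b n)) * (if m = n then (T : ℂ) else 0) =
          T * (a m * (starRingEnd ℂ) (b m)) := by
        intro m
        rw [tsum_eq_single m]
        · rw [if_pos rfl]
          ring
        · intro n hn
          rw [if_neg hn.symm, mul_zero]
      simp only [h3]
      rw [tsum_mul_left]
    rw [← h2]
    exact hS.hasSum
  have hdiff := hint.sub hdiag
  have hfin : (∫ t in (0 : ℝ)..T, (∑' n : ℕ, a n * ei (-(t * Real.log (n + 1 : ℝ)))) *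
        (starRingEnd ℂ) (∑' n : ℕ, b n * ei (-(t * Real.log (n + 1 : ℝ))))) -
      T * ∑' n : ℕ, a n * (starRingEnd ℂ) (b n) = ∑' p : ℕ × ℕ, ((a p.1 * (starRingEnd ℂ) (b p.2)) *
      ((∫ t in (0 : ℝ)..T, ei (t * (Real.log (p.2 + 1 : ℝ) - Real.log (p.1 + 1 : ℝ)))) -
        (if p.1 = p.2 then (T : ℂ) else 0))) := by
    simp_rw [hprod]
    rw [← hdiff.tsum_eq]
    congr 1
    funext p
    rw [intervalIntegral.integral_const_mul]
    ring
  have hbd : ∀ p : ℕ × ℕ, ‖(a p.1 * (starRingEnd ℂ) (b p.2)) *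
      ((∫ t in (0 : ℝ)..T, ei (t * (Real.log (p.2 + 1 : ℝ) - Real.log (p.1 + 1 : ℝ)))) -
        (if p.1 = p.2 then (T : ℂ) else 0))‖ ≤
      2 * (((p.1 + 1 : ℝ) * c p.1) * c p.2 + c p.1 * ((p.2 + 1 : ℝ) * c p.2)) := by
    intro p
    rw [norm_mul]
    calc _ ≤ c p.1 * c p.2 * (2 * ((p.1 + 1 : ℝ) + (p.2 + 1 : ℝ))) :=
          mul_le_mul (hcb p) E1_J (norm_nonneg _) (mul_nonneg (hc _) (hc _))
      _ = _ := by ring
  have hc1 : ∀ n : ℕ, 0 ≤ (n + 1 : ℝ) * c n := fun n => mul_nonneg (by positivity) (hc n)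
  have q1 : HasSum (fun p : ℕ × ℕ => ((p.1 + 1 : ℝ) * c p.1) * c p.2)
      ((∑' n : ℕ, (n + 1 : ℝ) * c n) * ∑' n, c n) := by
    rw [hs1.tsum_mul_tsum hs (hs1.mul_of_nonneg hs hc1 hc)]
    exact (hs1.mul_of_nonneg hs hc1 hc).hasSum
  have q2 : HasSum (fun p : ℕ × ℕ => c p.1 * ((p.2 + 1 : ℝ) * c p.2))
      ((∑' n, c n) * ∑' n : ℕ, (n + 1 : ℝ) * c n) := by
    rw [hs.tsum_mul_tsum hs1 (hs.mul_of_nonneg hs1 hc hc1)]
    exact (hs.mul_of_nonneg hs1 hc hc1).hasSum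
  have q3 := tsum_of_norm_bounded ((q1.add q2).mul_left 2) hbd
  rw [hfin]
  refine q3.trans (le_of_eq ?_)
  ring

end OL
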