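import Pool.Agent.Lib.MP_39df77_nt.OL.E2

/-!
# Dirichlet convolutions of powers `n^{-z}`
-/

set_option autoImplicit false

open Complex MeasureTheory Set Filter Topology

namespace OL

/-- the arithmetic function `n^{-z}` -/
noncomputable def pwA (z : ℂ) : ArithmeticFunction ℂ :=
  ⟨fun n => if n = 0 then 0 else (n : ℂ) ^ (-z), by simp⟩

/-- the arithmetic function `e^{-n/X} n^{-z}` -/
noncomputable def EA (X : ℝ) (z : ℂ) : ArithmeticFunction ℂ :=
  ⟨fun n => if n = 0 then 0 else ((Real.exp (-(n / X)) : ℝ) : ℂ) * (n : ℂ) ^ (-z), by simp⟩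

/-- the arithmetic function `1` (real valued) -/
noncomputable def oneR : ArithmeticFunction ℝ := ⟨fun n => if n = 0 then 0 else 1, by simp⟩

/-- the arithmetic function `e^{-n/X}` (real valued) -/
noncomputable def ER (X : ℝ) : ArithmeticFunction ℝ :=
  ⟨fun n => if n = 0 then 0 else Real.exp (-(n / X)), by simp⟩

lemma pwA_apply {z : ℂ} {n : ℕ} (hn : n ≠ 0) : pwA z n = (n : ℂ) ^ (-z) := if_neg hn

lemma EA_apply {X : ℝ} {z : ℂ} {n : ℕ} (hn : n ≠ 0) :
    EA X z n = ((Real.exp (-(n / X)) : ℝ) : ℂ) * (n : ℂ) ^ (-z) := if_neg hn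

lemma oneR_apply {n : ℕ} (hn : n ≠ 0) : oneR n = 1 := if_neg hn

lemma ER_apply {X : ℝ} {n : ℕ} (hn : n ≠ 0) : ER X n = Real.exp (-(n / X)) := if_neg hn

lemma pw_norm {z : ℂ} (hz : 0 ≤ z.re) {n : ℕ} (hn : n ≠ 0) : ‖(n : ℂ) ^ (-z)‖ ≤ 1 := by
  rw [Complex.norm_natCast_cpow_of_pos (Nat.pos_of_ne_zero hn), Complex.neg_re]
  exact Real.rpow_le_one_of_one_le_of_nonpos (by exact_mod_cast Nat.pos_of_ne_zero hn) (by linarith)

lemma pwA_norm {z : ℂ} (hz : 0 ≤ z.re) (n : ℕ) : ‖pwA z n‖ ≤ oneR n := by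
  rcases eq_or_ne n 0 with rfl | hn
  · simp
  · rw [pwA_apply hn, oneR_apply hn]
    exact pw_norm hz hn

lemma EA_norm (X : ℝ) {z : ℂ} (hz : 0 ≤ z.re) (n : ℕ) : ‖EA X z n‖ ≤ ER X n := by
  rcases eq_or_ne n 0 with rfl | hn
  · simp
  · rw [EA_apply hn, ER_apply hn, norm_mul, Complex.norm_real, Real.norm_of_nonneg (Real.exp_pos _).le]
    exact mul_le_of_le_one_right (Real.exp_pos _).le (pw_norm hz hn)

lemma oneR_nonneg (n : ℕ) : 0 ≤ oneR n := by
  rcases eq_or_ne n 0 with rfl | hn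
  · simp
  · rw [oneR_apply hn]; exact zero_le_one

lemma ER_nonneg (X : ℝ) (n : ℕ) : 0 ≤ ER X n := by
  rcases eq_or_ne n 0 with rfl | hn
  · simp
  · rw [ER_apply hn]; exact (Real.exp_pos _).le

lemma ER_le {X : ℝ} (hX : 0 < X) (n : ℕ) : ER X n ≤ oneR n := by
  rcases eq_or_ne n 0 with rfl | hn
  · simp
  · rw [ER_apply hn, oneR_apply hn, Real.exp_le_one_iff]
    have : 0 ≤ (n : ℝ) / X := by positivity
    linarith

/-! ### Products -/

lemma af_pow_nonneg {F : ArithmeticFunction ℝ} (hF : ∀ n, 0 ≤ F n) (k n : ℕ) : 0 ≤ (F ^ k) n := by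
  induction k generalizing n with
  | zero =>
    rw [pow_zero, ArithmeticFunction.one_apply]
    split_ifs <;> norm_num
  | succ k ih =>
    rw [pow_succ, ArithmeticFunction.mul_apply]
    exact Finset.sum_nonneg fun p _ => mul_nonneg (ih _) (hF _)

lemma af_pow_mono {F G : ArithmeticFunction ℝ} (hF : ∀ n, 0 ≤ F n) (hFG : ∀ n, F n ≤ G n) (k n : ℕ) :
    (F ^ k) n ≤ (G ^ k) n := by
  induction k generalizing n with
  | zero => rw [pow_zero, pow_zero]
  | succ k ih =>
    rw [pow_succ, pow_succ, ArithmeticFunction.mul_apply, ArithmeticFunction.mul_apply]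
    refine Finset.sum_le_sum fun p _ => mul_le_mul (ih _) (hFG _) (hF _) ?_
    exact (af_pow_nonneg hF k _).trans (ih _)

lemma af_prod_norm {ι : Type*} [DecidableEq ι] {f : ι → ArithmeticFunction ℂ} {F : ArithmeticFunction ℝ}
    (hF : ∀ n, 0 ≤ F n) (hf : ∀ i n, ‖f i n‖ ≤ F n) (s : Finset ι) (n : ℕ) :
    ‖(∏ i ∈ s, f i) n‖ ≤ (F ^ s.card) n := by
  induction s using Finset.induction_on generalizing n with
  | empty =>
    rw [Finset.prod_empty, Finset.card_empty, pow_zero, ArithmeticFunction.one_apply,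
      ArithmeticFunction.one_apply]
    split_ifs <;> simp
  | insert i s hi ih =>
    rw [Finset.prod_insert hi, Finset.card_insert_of_notMem hi, pow_succ', ArithmeticFunction.mul_apply,
      ArithmeticFunction.mul_apply]
    refine (norm_sum_le _ _).trans (Finset.sum_le_sum fun p _ => ?_)
    rw [norm_mul]
    exact mul_le_mul (hf _ _) (ih _) (norm_nonneg _) (hF _)

/-- comparison of the two products -/
lemma af_diff {ι : Type*} [DecidableEq ι] {a : ι → ℂ} (ha : ∀ i, 0 ≤ (a i).re) {X η : ℝ}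
    (hX : 0 < X) (h0 : 0 < η) (h1 : η ≤ 1) (s : Finset ι) {n : ℕ} (hn : n ≠ 0) :
    ‖(∏ i ∈ s, pwA (a i)) n - (∏ i ∈ s, EA X (a i)) n‖ ≤
      (s.card : ℝ) * (n / X) ^ η * (oneR ^ s.card) n := by
  induction s using Finset.induction_on generalizing n with
  | empty => simp
  | insert i s hi ih =>
    rw [Finset.prod_insert hi, Finset.prod_insert hi, Finset.card_insert_of_notMem hi, pow_succ',
      ArithmeticFunction.mul_apply, ArithmeticFunction.mul_apply, ArithmeticFunction.mul_apply,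
      ← Finset.sum_sub_distrib, Finset.mul_sum]
    refine (norm_sum_le _ _).trans (Finset.sum_le_sum fun p hp => ?_)
    rw [Nat.mem_divisorsAntidiagonal] at hp
    have hp1 : p.1 ≠ 0 := by
      intro h
      rw [h, zero_mul] at hp
      exact hp.2 hp.1.symm
    have hp2 : p.2 ≠ 0 := by
      intro h
      rw [h, mul_zero] at hp
      exact hp.2 hp.1.symm
    have l1 : p.1 ≤ n := by
      rw [← hp.1]
      exact Nat.le_mul_of_pos_right _ (Nat.pos_of_ne_zero hp2)
    have l2 : p.2 ≤ n := by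
      rw [← hp.1]
      exact Nat.le_mul_of_pos_left _ (Nat.pos_of_ne_zero hp1)
    have l1' : ((p.1 : ℝ) / X) ^ η ≤ ((n : ℝ) / X) ^ η := by
      refine Real.rpow_le_rpow (by positivity) ?_ h0.le
      gcongr
    have l2' : ((p.2 : ℝ) / X) ^ η ≤ ((n : ℝ) / X) ^ η := by
      refine Real.rpow_le_rpow (by positivity) ?_ h0.le
      gcongr
    have e1 : pwA (a i) p.1 * (∏ i ∈ s, pwA (a i)) p.2 - EA X (a i) p.1 * (∏ i ∈ s, EA X (a i)) p.2 =
        pwA (a i) p.1 * ((∏ i ∈ s, pwA (a i)) p.2 - (∏ i ∈ s, EA X (a i)) p.2) +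
          (pwA (a i) p.1 - EA X (a i) p.1) * (∏ i ∈ s, EA X (a i)) p.2 := by ring
    have e2 : ‖pwA (a i) p.1 - EA X (a i) p.1‖ ≤ ((n : ℝ) / X) ^ η := by
      rw [pwA_apply hp1, EA_apply hp1]
      have e3 : ((p.1 : ℂ) ^ (-(a i)) - ((Real.exp (-((p.1 : ℝ) / X)) : ℝ) : ℂ) *
          (p.1 : ℂ) ^ (-(a i))) =
          ((1 - Real.exp (-((p.1 : ℝ) / X)) : ℝ) : ℂ) * (p.1 : ℂ) ^ (-(a i)) := by
        push_cast
        ring
      rw [e3, norm_mul]
      refine (mul_le_of_le_one_right (norm_nonneg _) (pw_norm (ha i) hp1)).trans ?_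
      rw [Complex.norm_real, Real.norm_of_nonneg]
      · have hu : 0 ≤ (p.1 : ℝ) / X := by positivity
        refine le_trans ?_ l1'
        -- 1 - e^{-u} ≤ u^η
        rcases le_total ((p.1 : ℝ) / X) 1 with h | h
        · have a1 := Real.add_one_le_exp (-((p.1 : ℝ) / X))
          have hu0 : 0 < (p.1 : ℝ) / X := by
            have : (0 : ℝ) < p.1 := by exact_mod_cast Nat.pos_of_ne_zero hp1
            positivity
          have a2 : ((p.1 : ℝ) / X) ^ (1 : ℝ) ≤ ((p.1 : ℝ) / X) ^ η :=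
            Real.rpow_le_rpow_of_exponent_ge hu0 h h1
          rw [Real.rpow_one] at a2
          linarith
        · have a1 : 1 ≤ ((p.1 : ℝ) / X) ^ η := Real.one_le_rpow h h0.le
          have := Real.exp_pos (-((p.1 : ℝ) / X))
          linarith
      · have : Real.exp (-((p.1 : ℝ) / X)) ≤ 1 := by
          rw [Real.exp_le_one_iff]
          have : 0 ≤ (p.1 : ℝ) / X := by positivity
          linarith
        linarith
    have e4 : ‖(∏ i ∈ s, EA X (a i)) p.2‖ ≤ (oneR ^ s.card) p.2 :=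
      (af_prod_norm (ER_nonneg X) (fun i n => EA_norm X (ha i) n) s p.2).trans
        (af_pow_mono (ER_nonneg X) (ER_le hX) _ _)
    have e5 := ih hp2
    have e6 : 0 ≤ (oneR ^ s.card) p.2 := af_pow_nonneg oneR_nonneg _ _
    have e7 : (0 : ℝ) ≤ ((n : ℝ) / X) ^ η := by positivity
    rw [e1]
    refine (norm_add_le _ _).trans ?_
    have e8 : ‖pwA (a i) p.1‖ ≤ 1 := by
      have := pwA_norm (ha i) p.1
      rwa [oneR_apply hp1] at this
    rw [norm_mul, norm_mul, oneR_apply hp1, one_mul]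
    refine (add_le_add_left (mul_le_of_le_one_left (norm_nonneg _) e8) _).trans ?_
    calc ‖(∏ i ∈ s, pwA (a i)) p.2 - (∏ i ∈ s, EA X (a i)) p.2‖ +
          ‖pwA (a i) p.1 - EA X (a i) p.1‖ * ‖(∏ i ∈ s, EA X (a i)) p.2‖
        ≤ (s.card : ℝ) * ((n : ℝ) / X) ^ η * (oneR ^ s.card) p.2 +
          ((n : ℝ) / X) ^ η * (oneR ^ s.card) p.2 := by
          refine add_le_add (e5.trans ?_) (mul_le_mul e2 e4 (norm_nonneg _) e7)
          gcongr
      _ = _ := by
          push_cast
          ring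

/-- divisor bound -/
lemma oneR_pow_bound (k : ℕ) {e : ℝ} (he : 0 < e) : ∃ C : ℝ, 1 ≤ C ∧ ∀ n : ℕ, n ≠ 0 →
    (oneR ^ k) n ≤ C * (n : ℝ) ^ e := by
  induction k generalizing e with
  | zero =>
    refine ⟨1, le_rfl, fun n hn => ?_⟩
    have h1 : (1 : ℝ) ≤ n := by exact_mod_cast Nat.pos_of_ne_zero hn
    have h2 : 1 ≤ (n : ℝ) ^ e := Real.one_le_rpow h1 he.le
    rw [pow_zero, ArithmeticFunction.one_apply]
    split_ifs <;> linarith
  | succ k ih =>
    obtain ⟨C, hC1, hC⟩ := ih (e := e / 2) (by linarith)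
    obtain ⟨D, hD1, hD⟩ := U6.FM.fm_div (e / 2) (by linarith)
    refine ⟨C * D, one_le_mul_of_one_le_of_one_le hC1 hD1, fun n hn => ?_⟩
    have hn0 : (0 : ℝ) < n := by exact_mod_cast Nat.pos_of_ne_zero hn
    rw [pow_succ, ArithmeticFunction.mul_apply]
    have h1 : ∑ p ∈ n.divisorsAntidiagonal, (oneR ^ k) p.1 * oneR p.2 ≤
        ∑ _p ∈ n.divisorsAntidiagonal, C * (n : ℝ) ^ (e / 2) := by
      refine Finset.sum_le_sum fun p hp => ?_
      rw [Nat.mem_divisorsAntidiagonal] at hp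
      have hp1 : p.1 ≠ 0 := by
        intro h
        rw [h, zero_mul] at hp
        exact hp.2 hp.1.symm
      have hp2 : p.2 ≠ 0 := by
        intro h
        rw [h, mul_zero] at hp
        exact hp.2 hp.1.symm
      have l1 : p.1 ≤ n := by
        rw [← hp.1]
        exact Nat.le_mul_of_pos_right _ (Nat.pos_of_ne_zero hp2)
      rw [oneR_apply hp2, mul_one]
      refine (hC _ hp1).trans ?_
      have : ((p.1 : ℕ) : ℝ) ^ (e / 2) ≤ (n : ℝ) ^ (e / 2) :=
        Real.rpow_le_rpow (by positivity) (by exact_mod_cast l1) (by linarith)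
      exact mul_le_mul_of_nonneg_left this (by linarith)
    refine h1.trans ?_
    have hcard : n.divisorsAntidiagonal.card = n.divisors.card := by
      rw [← Nat.map_div_right_divisors, Finset.card_map]
    rw [Finset.sum_const, nsmul_eq_mul, hcard]
    have h2 := hD n hn
    have h3 : (n : ℝ) ^ e = (n : ℝ) ^ (e / 2) * (n : ℝ) ^ (e / 2) := by
      rw [← Real.rpow_add hn0]
      congr 1
      ring
    rw [h3]
    have h4 : 0 ≤ C * (n : ℝ) ^ (e / 2) := by positivity
    calc (n.divisors.card : ℝ) * (C * (n : ℝ) ^ (e / 2)) ≤ (D * (n : ℝ) ^ (e / 2)) * (C * (n : ℝ) ^ (e / 2)) :=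
          mul_le_mul_of_nonneg_right h2 h4
      _ = _ := by ring

/-- complex conjugation -/
lemma EA_conj (X : ℝ) (z : ℂ) (n : ℕ) : (starRingEnd ℂ) (EA X ((starRingEnd ℂ) z) n) = EA X z n := by
  rcases eq_or_ne n 0 with rfl | hn
  · simp
  · rw [EA_apply hn, EA_apply hn, map_mul, conj_ofReal]
    congr 1
    have h1 : ((n : ℕ) : ℂ) ≠ 0 := by exact_mod_cast hn
    rw [Complex.cpow_def_of_ne_zero h1, Complex.cpow_def_of_ne_zero h1, ← Complex.exp_conj]
    congr 1
    have h2 : Complex.log (n : ℂ) = ((Real.log n : ℝ) : ℂ) := by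
      rw [Complex.natCast_log]
    rw [h2, map_mul, conj_ofReal, map_neg, Complex.conj_conj]

lemma EA_prod_conj {ι : Type*} [DecidableEq ι] (b : ι → ℂ) (X : ℝ) (s : Finset ι) (n : ℕ) :
    (starRingEnd ℂ) ((∏ i ∈ s, EA X ((starRingEnd ℂ) (b i))) n) = (∏ i ∈ s, EA X (b i)) n := by
  induction s using Finset.induction_on generalizing n with
  | empty =>
    rw [Finset.prod_empty, Finset.prod_empty, ArithmeticFunction.one_apply]
    split_ifs <;> simp
  | insert i s hi ih =>
    rw [Finset.prod_insert hi, Finset.prod_insert hi, ArithmeticFunction.mul_apply,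
      ArithmeticFunction.mul_apply, map_sum]
    refine Finset.sum_congr rfl fun p _ => ?_
    rw [map_mul, EA_conj, ih]

/-- a common factor `n^{-c}` -/
lemma pwA_prod_shift {ι : Type*} [DecidableEq ι] (z : ι → ℂ) (c : ℂ) (s : Finset ι) {n : ℕ}
    (hn : n ≠ 0) (hs : s.Nonempty) :
    (∏ i ∈ s, pwA (c + z i)) n = (n : ℂ) ^ (-c) * (∏ i ∈ s, pwA (z i)) n := by
  induction hs using Finset.Nonempty.cons_induction generalizing n with
  | singleton i =>
    have h1 : ((n : ℕ) : ℂ) ≠ 0 := by exact_mod_cast hn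
    rw [Finset.prod_singleton, Finset.prod_singleton, pwA_apply hn, pwA_apply hn,
      ← Complex.cpow_add _ _ h1]
    congr 1
    ring
  | cons i s hi _ ih =>
    rw [Finset.prod_cons, Finset.prod_cons, ArithmeticFunction.mul_apply,
      ArithmeticFunction.mul_apply, Finset.mul_sum]
    refine Finset.sum_congr rfl fun p hp => ?_
    rw [Nat.mem_divisorsAntidiagonal] at hp
    have hp1 : p.1 ≠ 0 := by
      intro h
      rw [h, zero_mul] at hp
      exact hp.2 hp.1.symm
    have hp2 : p.2 ≠ 0 := by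
      intro h
      rw [h, mul_zero] at hp
      exact hp.2 hp.1.symm
    have h1 : ((p.1 : ℕ) : ℂ) ≠ 0 := by exact_mod_cast hp1
    rw [ih hp2, pwA_apply hp1, pwA_apply hp1, neg_add, Complex.cpow_add _ _ h1, ← hp.1]
    have h3 : (((p.1 * p.2 : ℕ) : ℂ)) ^ (-c) = (p.1 : ℂ) ^ (-c) * (p.2 : ℂ) ^ (-c) := by
      push_cast
      exact Complex.natCast_mul_natCast_cpow _ _ _
    rw [h3]
    ring

/-! ### Dirichlet series -/

lemma EA_term (X : ℝ) (z s : ℂ) (n : ℕ) :
    LSeries.term (EA X z) s n = LSeries.term (EX X) (s + z) n := by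
  rcases eq_or_ne n 0 with rfl | hn
  · simp
  · rw [LSeries.term_of_ne_zero hn, LSeries.term_of_ne_zero hn, EA_apply hn]
    unfold EX
    have h1 : ((n : ℕ) : ℂ) ≠ 0 := by exact_mod_cast hn
    rw [Complex.cpow_add _ _ h1, Complex.cpow_neg]
    field_simp

lemma EA_summable {X : ℝ} (hX : 0 < X) (z s : ℂ) : LSeriesSummable (EA X z) s := by
  have h := EX_summable hX (s + z)
  unfold LSeriesSummable at h ⊢
  exact h.congr fun n => (EA_term X z s n).symm

lemma EA_LSeries (X : ℝ) (z s : ℂ) : LSeries (EA X z) s = LSeries (EX X) (s + z) := by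
  unfold LSeries
  exact tsum_congr fun n => EA_term X z s n

lemma EA_prod_LSeries {ι : Type*} [DecidableEq ι] (a : ι → ℂ) {X : ℝ} (hX : 0 < X) (s : ℂ)
    (S : Finset ι) : LSeriesSummable (∏ i ∈ S, EA X (a i) : ArithmeticFunction ℂ) s ∧
    LSeries (∏ i ∈ S, EA X (a i) : ArithmeticFunction ℂ) s = ∏ i ∈ S, LSeries (EX X) (s + a i) := by
  induction S using Finset.induction_on with
  | empty =>
    rw [Finset.prod_empty, Finset.prod_empty]
    have hd : (⇑(1 : ArithmeticFunction ℂ) : ℕ → ℂ) = LSeries.delta := ArithmeticFunction.one_eq_delta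
    constructor
    · rw [hd]
      unfold LSeriesSummable
      have h := (hasSum_ite_eq (1 : ℕ) (1 : ℂ)).summable
      exact h.congr fun n => (LSeries.term_delta s n).symm
    · rw [hd, LSeries_delta]
      rfl
  | insert i S hi ih =>
    rw [Finset.prod_insert hi, Finset.prod_insert hi]
    constructor
    · exact ArithmeticFunction.LSeriesSummable_mul (EA_summable hX _ _) ih.1
    · rw [ArithmeticFunction.LSeries_mul' (EA_summable hX _ _) ih.1, ih.2, EA_LSeries]

end OL
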