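import Pool.Agent.Lib.MP_069854_nt.R8.M1
import Pool.Agent.Lib.MP_069854_nt.R8.M2
import Pool.Agent.Lib.MP_39df77_nt.OL.E7

/-!
# The mean value of products of shifted smoothed series
-/

set_option autoImplicit false

open Complex MeasureTheory Set Filter Topology

namespace OL

variable {k : ℕ}

/-- the coefficients `∏_j n_j^{-z_j}` summed over `n_1 ⋯ n_k = n` -/
noncomputable def DA (z : Fin k → ℂ) : ArithmeticFunction ℂ := ∏ j, pwA (z j)

/-- the smoothed coefficients -/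
noncomputable def EK (X : ℝ) (z : Fin k → ℂ) : ArithmeticFunction ℂ := ∏ j, EA X (z j)

lemma DA_norm {z : Fin k → ℂ} (hz : ∀ j, 0 ≤ (z j).re) (n : ℕ) : ‖DA z n‖ ≤ (oneR ^ k) n := by
  have := af_prod_norm oneR_nonneg (fun i n => pwA_norm (hz i) n) (Finset.univ : Finset (Fin k)) n
  simpa [DA] using this

lemma EK_norm (X : ℝ) {z : Fin k → ℂ} (hz : ∀ j, 0 ≤ (z j).re) (n : ℕ) :
    ‖EK X z n‖ ≤ (ER X ^ k) n := by
  have := af_prod_norm (ER_nonneg X) (fun i n => EA_norm X (hz i) n)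
    (Finset.univ : Finset (Fin k)) n
  simpa [EK] using this

lemma EK_diff {z : Fin k → ℂ} (hz : ∀ j, 0 ≤ (z j).re) {X η : ℝ} (hX : 0 < X) (h0 : 0 < η)
    (h1 : η ≤ 1) {n : ℕ} (hn : n ≠ 0) :
    ‖DA z n - EK X z n‖ ≤ k * (n / X) ^ η * (oneR ^ k) n := by
  have := af_diff hz hX h0 h1 (Finset.univ : Finset (Fin k)) hn
  simpa [DA, EK] using this

lemma EK_conj (z : Fin k → ℂ) (X : ℝ) (n : ℕ) :
    (starRingEnd ℂ) (EK X (fun j => (starRingEnd ℂ) (z j)) n) = EK X z n :=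
  EA_prod_conj z X Finset.univ n

/-- the product of the smoothed series as a Dirichlet series -/
lemma M3_prod {X : ℝ} (hX : 0 < X) (σ t : ℝ) (z : Fin k → ℂ) :
    ∏ j, Sx (σ + (z j).re) X (t + (z j).im) =
      ∑' n : ℕ, (EK X z (n + 1) * (((n + 1 : ℝ) ^ (-σ) : ℝ) : ℂ)) *
      ei (-(t * Real.log (n + 1 : ℝ))) := by
  have h := EA_prod_LSeries z hX (σ + t * I) (Finset.univ : Finset (Fin k))
  have e1 : ∀ j, Sx (σ + (z j).re) X (t + (z j).im) = LSeries (EX X) ((σ + t * I) + z j) := by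
    intro j
    rw [E2_Sx, (E2_shift (EX_summable hX _)).2]
    congr 1
    funext n
    congr 2
    have h1 : z j = ((z j).re : ℂ) + ((z j).im : ℂ) * I := (Complex.re_add_im (z j)).symm
    rw [h1]
    simp only [Complex.add_re, Complex.add_im, Complex.mul_re, Complex.mul_im, Complex.ofReal_re,
      Complex.ofReal_im, Complex.I_re, Complex.I_im]
    push_cast
    ring
  rw [Finset.prod_congr rfl fun j _ => e1 j, ← h.2, (E2_shift h.1).2]
  congr 1
  funext n
  rw [E2_pow]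
  unfold EK
  ring

/-- `EK X 0` is the real function `ER X ^ k` -/
lemma EK_zero (X : ℝ) (n : ℕ) : (∏ _j : Fin k, EA X 0) n = (((ER X ^ k) n : ℝ) : ℂ) := by
  rw [Finset.prod_const, Finset.card_univ, Fintype.card_fin]
  induction k generalizing n with
  | zero =>
    rw [pow_zero, pow_zero, ArithmeticFunction.one_apply, ArithmeticFunction.one_apply]
    split_ifs <;> simp
  | succ k ih =>
    rw [pow_succ, pow_succ, ArithmeticFunction.mul_apply, ArithmeticFunction.mul_apply]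
    push_cast
    refine Finset.sum_congr rfl fun p _ => ?_
    rw [ih]
    congr 1
    rcases eq_or_ne p.2 0 with h | h
    · rw [h]; simp
    · rw [EA_apply h, ER_apply h]
      simp

/-- the real Dirichlet series of `ER X ^ k` -/
lemma M3_real {X : ℝ} (hX : 0 < X) (u : ℝ) :
    Summable (fun n : ℕ => (ER X ^ k) (n + 1) * (n + 1 : ℝ) ^ (-u)) ∧
    ∑' n : ℕ, (ER X ^ k) (n + 1) * (n + 1 : ℝ) ^ (-u) =
      (∑' n : ℕ, Real.exp (-((n + 1 : ℝ) / X)) * (n + 1 : ℝ) ^ (-u)) ^ k := by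
  have h := EA_prod_LSeries (fun _ : Fin k => (0 : ℂ)) hX (u : ℂ) (Finset.univ : Finset (Fin k))
  have hs := E2_shift h.1
  have e1 : ∀ n : ℕ, ((n + 1 : ℝ) : ℂ) ^ (-(u : ℂ)) = (((n + 1 : ℝ) ^ (-u) : ℝ) : ℂ) := by
    intro n
    have hn : (0 : ℝ) < n + 1 := by positivity
    rw [ofReal_cpow hn.le]
    push_cast
    rfl
  have e2 : ∀ n : ℕ, (∏ _j : Fin k, EA X 0) (n + 1) * ((n + 1 : ℝ) : ℂ) ^ (-(u : ℂ)) =
      (((ER X ^ k) (n + 1) * (n + 1 : ℝ) ^ (-u) : ℝ) : ℂ) := by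
    intro n
    rw [EK_zero, e1]
    push_cast
    ring
  have h1 := hs.1
  have h2 := hs.2
  rw [h.2] at h2
  simp only [e2] at h1 h2
  have h3 : Summable (fun n : ℕ => (ER X ^ k) (n + 1) * (n + 1 : ℝ) ^ (-u)) := by
    exact_mod_cast Complex.summable_ofReal.1 h1
  refine ⟨h3, ?_⟩
  have h4 : LSeries (EX X) ((u : ℂ) + 0) =
      ((∑' n : ℕ, Real.exp (-((n + 1 : ℝ) / X)) * (n + 1 : ℝ) ^ (-u) : ℝ) : ℂ) := by
    have h5 : (u : ℂ) + 0 = u := by simp
    rw [h5, (E2_shift (EX_summable hX _)).2, Complex.ofReal_tsum]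
    congr 1
    funext n
    rw [e1]
    unfold EX
    push_cast
    rfl
  rw [Finset.prod_congr rfl fun j _ => h4, Finset.prod_const, Finset.card_univ, Fintype.card_fin,
    ← Complex.ofReal_tsum] at h2
  exact_mod_cast h2.symm

end OL
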