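import Pool.Agent.Lib.MP_069854_nt.R8.M3

/-!
# The mean value of products of shifted smoothed series: sums, rate, mean value
-/

set_option autoImplicit false

open Complex MeasureTheory Set Filter Topology

namespace OL

variable {k : ℕ}

lemma M3_sum0 {σ X : ℝ} (h0 : 0 < σ) (hX : 0 < X) :
    ∑' n : ℕ, (ER X ^ k) (n + 1) * (n + 1 : ℝ) ^ (-σ) ≤ X ^ k := by
  obtain ⟨h1, h3⟩ := M3_real (k := k) hX σ
  have h2 := (E2_real hX σ).2.1
  obtain ⟨g1, g2⟩ := E2_geo hX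
  rw [h3]
  apply pow_le_pow_left₀ (tsum_nonneg fun n => by positivity)
  refine le_trans (h2.tsum_le_tsum (fun n => ?_) g1) g2
  refine mul_le_of_le_one_right (Real.exp_pos _).le ?_
  apply Real.rpow_le_one_of_one_le_of_nonpos
  · have := Nat.cast_nonneg (α := ℝ) n
    linarith
  · linarith

lemma M3_sum1 {σ X : ℝ} (h0 : 0 < σ) (hX : 0 < X) :
    Summable (fun n : ℕ => (n + 1 : ℝ) * ((ER X ^ k) (n + 1) * (n + 1 : ℝ) ^ (-σ))) ∧
    ∑' n : ℕ, (n + 1 : ℝ) * ((ER X ^ k) (n + 1) * (n + 1 : ℝ) ^ (-σ)) ≤ (4 * X ^ 2) ^ k := by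
  have e : ∀ n : ℕ, (n + 1 : ℝ) * ((ER X ^ k) (n + 1) * (n + 1 : ℝ) ^ (-σ)) =
      (ER X ^ k) (n + 1) * (n + 1 : ℝ) ^ (-(σ - 1)) := by
    intro n
    have hn : (0 : ℝ) < n + 1 := by positivity
    have : -(σ - 1) = 1 + -σ := by ring
    rw [this, Real.rpow_add hn, Real.rpow_one]
    ring
  simp_rw [e]
  obtain ⟨h1, h3⟩ := M3_real (k := k) hX (σ - 1)
  have h2 := (E2_real hX (σ - 1)).2.1
  obtain ⟨g1, g2⟩ := E2_geo (X := 2 * X) (by positivity)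
  refine ⟨h1, ?_⟩
  rw [h3]
  have h4 : (∑' n : ℕ, Real.exp (-((n + 1 : ℝ) / X)) * (n + 1 : ℝ) ^ (-(σ - 1))) ≤ 4 * X ^ 2 := by
    have h5 : ∀ n : ℕ, Real.exp (-((n + 1 : ℝ) / X)) * (n + 1 : ℝ) ^ (-(σ - 1)) ≤
        2 * X * Real.exp (-((n + 1 : ℝ) / (2 * X))) := by
      intro n
      have hn : (1 : ℝ) ≤ n + 1 := by
        have := Nat.cast_nonneg (α := ℝ) n
        linarith
      have h6 : (n + 1 : ℝ) ^ (-(σ - 1)) ≤ n + 1 := by
        have := Real.rpow_le_rpow_of_exponent_le hn (show -(σ - 1) ≤ 1 by linarith)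
        rwa [Real.rpow_one] at this
      have h7 : (n + 1 : ℝ) / (2 * X) ≤ Real.exp ((n + 1 : ℝ) / (2 * X)) := by
        have := Real.add_one_le_exp ((n + 1 : ℝ) / (2 * X))
        linarith
      have h8 : (n + 1 : ℝ) ≤ 2 * X * Real.exp ((n + 1 : ℝ) / (2 * X)) := by
        rw [div_le_iff₀ (by positivity)] at h7
        linarith
      have h9 : Real.exp (-((n + 1 : ℝ) / X)) = Real.exp (-((n + 1 : ℝ) / (2 * X))) *
          Real.exp (-((n + 1 : ℝ) / (2 * X))) := by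
        rw [← Real.exp_add]
        congr 1
        field_simp
        ring
      have h10 : Real.exp ((n + 1 : ℝ) / (2 * X)) * Real.exp (-((n + 1 : ℝ) / (2 * X))) = 1 := by
        rw [← Real.exp_add]
        simp
      calc Real.exp (-((n + 1 : ℝ) / X)) * (n + 1 : ℝ) ^ (-(σ - 1))
          ≤ Real.exp (-((n + 1 : ℝ) / X)) * (2 * X * Real.exp ((n + 1 : ℝ) / (2 * X))) := by
            gcongr
            exact h6.trans h8
        _ = 2 * X * Real.exp (-((n + 1 : ℝ) / (2 * X))) *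
            (Real.exp ((n + 1 : ℝ) / (2 * X)) * Real.exp (-((n + 1 : ℝ) / (2 * X)))) := by
            rw [h9]; ring
        _ = _ := by rw [h10, mul_one]
    refine le_trans (h2.tsum_le_tsum h5 (g1.mul_left _)) ?_
    rw [tsum_mul_left]
    calc 2 * X * _ ≤ 2 * X * (2 * X) := by gcongr
      _ = 4 * X ^ 2 := by ring
  exact pow_le_pow_left₀ (tsum_nonneg fun n => by positivity) h4 k

/-- convergence of the square series -/
lemma oneR_sq_summable (k : ℕ) {s : ℝ} (hs : 1 < s) :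
    Summable (fun n : ℕ => (oneR ^ k) (n + 1) ^ 2 * (n + 1 : ℝ) ^ (-s)) := by
  obtain ⟨C, hC1, hC⟩ := oneR_pow_bound k (e := (s - 1) / 4) (by linarith)
  have h1 : Summable (fun n : ℕ => (n : ℝ) ^ (-((s + 1) / 2))) := by
    rw [Real.summable_nat_rpow]
    linarith
  have h2 := ((summable_nat_add_iff 1).2 h1).mul_left (C ^ 2)
  refine h2.of_nonneg_of_le (fun n => by positivity) fun n => ?_
  have hn : (0 : ℝ) < n + 1 := by positivity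
  have h3 := hC (n + 1) (Nat.succ_ne_zero n)
  have h4 : 0 ≤ (oneR ^ k) (n + 1) := af_pow_nonneg oneR_nonneg _ _
  push_cast at h3 ⊢
  calc (oneR ^ k) (n + 1) ^ 2 * (n + 1 : ℝ) ^ (-s)
      ≤ (C * (n + 1 : ℝ) ^ ((s - 1) / 4)) ^ 2 * (n + 1 : ℝ) ^ (-s) := by gcongr
    _ = C ^ 2 * (((n + 1 : ℝ) ^ ((s - 1) / 4)) ^ 2 * (n + 1 : ℝ) ^ (-s)) := by ring
    _ = _ := by
        rw [sq ((n + 1 : ℝ) ^ ((s - 1) / 4)), ← Real.rpow_add hn, ← Real.rpow_add hn]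
        congr 2
        ring

/-- the terms of the diagonal -/
noncomputable def dT (σ : ℝ) (z w : Fin k → ℂ) (n : ℕ) : ℂ :=
  DA z (n + 1) * DA w (n + 1) * (((n + 1 : ℝ) ^ (-(2 * σ)) : ℝ) : ℂ)

lemma dT_norm (σ : ℝ) {z w : Fin k → ℂ} (hz : ∀ j, 0 ≤ (z j).re) (hw : ∀ j, 0 ≤ (w j).re) (n : ℕ) :
    ‖dT σ z w n‖ ≤ (oneR ^ k) (n + 1) ^ 2 * (n + 1 : ℝ) ^ (-(2 * σ)) := by
  unfold dT
  have h1 := DA_norm hz (n + 1)
  have h2 := DA_norm hw (n + 1)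
  have h3 : 0 ≤ (oneR ^ k) (n + 1) := af_pow_nonneg oneR_nonneg _ _
  rw [norm_mul, norm_mul, Complex.norm_real, Real.norm_of_nonneg (by positivity), sq]
  gcongr

lemma dT_summable {σ : ℝ} (hσ : 1 / 2 < σ) {z w : Fin k → ℂ} (hz : ∀ j, 0 ≤ (z j).re)
    (hw : ∀ j, 0 ≤ (w j).re) : Summable fun n => ‖dT σ z w n‖ :=
  (oneR_sq_summable k (s := 2 * σ) (by linarith)).of_nonneg_of_le (fun _ => norm_nonneg _)
    fun n => dT_norm σ hz hw n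

/-- rate of convergence of the diagonal -/
lemma M3_rate (k : ℕ) {σ : ℝ} (hσ : 1 / 2 < σ) (hσ1 : σ < 1) : ∃ η C : ℝ, 0 < η ∧ 0 ≤ C ∧
    ∀ X : ℝ, 0 < X → ∀ z w : Fin k → ℂ, (∀ j, 0 ≤ (z j).re) → (∀ j, 0 ≤ (w j).re) →
    ‖(∑' n : ℕ, (EK X z (n + 1) * (((n + 1 : ℝ) ^ (-σ) : ℝ) : ℂ)) *
      (starRingEnd ℂ) (EK X (fun j => (starRingEnd ℂ) (w j)) (n + 1) *
        (((n + 1 : ℝ) ^ (-σ) : ℝ) : ℂ))) - ∑' n : ℕ, dT σ z w n‖ ≤ C * X ^ (-η) := by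
  set η : ℝ := (2 * σ - 1) / 2 with hη
  have hη0 : 0 < η := by rw [hη]; linarith
  have hη1 : η ≤ 1 := by rw [hη]; linarith
  have hb := oneR_sq_summable k (s := 2 * σ) (by linarith)
  have hb2 := oneR_sq_summable k (s := 2 * σ - η) (by rw [hη]; linarith)
  refine ⟨η, 2 * k * ∑' n : ℕ, (oneR ^ k) (n + 1) ^ 2 * (n + 1 : ℝ) ^ (-(2 * σ - η)), hη0, ?_,
    fun X hX z w hz hw => ?_⟩
  · exact mul_nonneg (by positivity) (tsum_nonneg fun n => by positivity)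
  have e0 : ∀ n : ℕ, (EK X z (n + 1) * (((n + 1 : ℝ) ^ (-σ) : ℝ) : ℂ)) *
      (starRingEnd ℂ) (EK X (fun j => (starRingEnd ℂ) (w j)) (n + 1) *
        (((n + 1 : ℝ) ^ (-σ) : ℝ) : ℂ)) =
      EK X z (n + 1) * EK X w (n + 1) * (((n + 1 : ℝ) ^ (-(2 * σ)) : ℝ) : ℂ) := by
    intro n
    have hn : (0 : ℝ) < n + 1 := by positivity
    rw [map_mul, EK_conj, conj_ofReal]
    have : (n + 1 : ℝ) ^ (-(2 * σ)) = (n + 1 : ℝ) ^ (-σ) * (n + 1 : ℝ) ^ (-σ) := by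
      rw [← Real.rpow_add hn]
      congr 1
      ring
    rw [this]
    push_cast
    ring
  simp_rw [e0]
  have hEK : ∀ (c : Fin k → ℂ) (_ : ∀ j, 0 ≤ (c j).re) (n : ℕ), ‖EK X c n‖ ≤ (oneR ^ k) n :=
    fun c hc n => (EK_norm X hc n).trans (af_pow_mono (ER_nonneg X) (ER_le hX) _ _)
  have hs1 : Summable fun n : ℕ =>
      EK X z (n + 1) * EK X w (n + 1) * (((n + 1 : ℝ) ^ (-(2 * σ)) : ℝ) : ℂ) := by
    refine Summable.of_norm_bounded hb fun n => ?_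
    have h1 := hEK z hz (n + 1)
    have h2 := hEK w hw (n + 1)
    have h3 : 0 ≤ (oneR ^ k) (n + 1) := af_pow_nonneg oneR_nonneg _ _
    rw [norm_mul, norm_mul, Complex.norm_real, Real.norm_of_nonneg (by positivity), sq]
    gcongr
  have hs2 : Summable fun n : ℕ => dT σ z w n := (dT_summable hσ hz hw).of_norm
  rw [← hs1.tsum_sub hs2]
  have hpt : ∀ n : ℕ, ‖EK X z (n + 1) * EK X w (n + 1) * (((n + 1 : ℝ) ^ (-(2 * σ)) : ℝ) : ℂ) -
      dT σ z w n‖ ≤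
      (2 * k * X ^ (-η)) * ((oneR ^ k) (n + 1) ^ 2 * (n + 1 : ℝ) ^ (-(2 * σ - η))) := by
    intro n
    have hn : (0 : ℝ) < n + 1 := by positivity
    have h1 := EK_diff hz hX hη0 hη1 (n := n + 1) (Nat.succ_ne_zero n)
    have h2 := EK_diff hw hX hη0 hη1 (n := n + 1) (Nat.succ_ne_zero n)
    have h3 : 0 ≤ (oneR ^ k) (n + 1) := af_pow_nonneg oneR_nonneg _ _
    have h4 := hEK w hw (n + 1)
    have h5 := DA_norm hz (n + 1)
    have e1 : EK X z (n + 1) * EK X w (n + 1) * (((n + 1 : ℝ) ^ (-(2 * σ)) : ℝ) : ℂ) -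
        dT σ z w n = -((DA z (n + 1) - EK X z (n + 1)) * EK X w (n + 1) +
          DA z (n + 1) * (DA w (n + 1) - EK X w (n + 1))) * (((n + 1 : ℝ) ^ (-(2 * σ)) : ℝ) : ℂ) := by
      unfold dT
      ring
    rw [e1, norm_mul, norm_neg, Complex.norm_real, Real.norm_of_nonneg (by positivity)]
    have h6 : ‖(DA z (n + 1) - EK X z (n + 1)) * EK X w (n + 1) +
          DA z (n + 1) * (DA w (n + 1) - EK X w (n + 1))‖ ≤
        2 * k * (((n + 1 : ℕ) : ℝ) / X) ^ η * (oneR ^ k) (n + 1) ^ 2 := by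
      refine (norm_add_le _ _).trans ?_
      rw [norm_mul, norm_mul]
      calc _ ≤ (k * (((n + 1 : ℕ) : ℝ) / X) ^ η * (oneR ^ k) (n + 1)) * (oneR ^ k) (n + 1) +
            (oneR ^ k) (n + 1) * (k * (((n + 1 : ℕ) : ℝ) / X) ^ η * (oneR ^ k) (n + 1)) := by
            gcongr
        _ = _ := by ring
    refine (mul_le_mul_of_nonneg_right h6 (by positivity)).trans (le_of_eq ?_)
    have h7 : (((n + 1 : ℕ) : ℝ) / X) ^ η = X ^ (-η) * (n + 1 : ℝ) ^ η := by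
      push_cast
      rw [Real.div_rpow hn.le hX.le, Real.rpow_neg hX.le]
      field_simp
    have h8 : (n + 1 : ℝ) ^ (-(2 * σ - η)) = (n + 1 : ℝ) ^ η * (n + 1 : ℝ) ^ (-(2 * σ)) := by
      rw [← Real.rpow_add hn]
      congr 1
      ring
    rw [h7, h8]
    ring
  have hd := hb2.mul_left (2 * k * X ^ (-η))
  have hfin := tsum_of_norm_bounded hd.hasSum hpt
  refine hfin.trans (le_of_eq ?_)
  rw [tsum_mul_left]
  ring

/-- the mean value of the product of the shifted smoothed series -/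
lemma M3_mean {k : ℕ} (hk : 1 ≤ k) {σ : ℝ} (hσ : 1 / 2 < σ) (hσ1 : σ < 1) : ∃ η C : ℝ, 0 < η ∧ 0 ≤ C ∧
    ∀ T : ℝ, 1 ≤ T → ∀ z w : Fin k → ℂ, (∀ j, 0 ≤ (z j).re) → (∀ j, 0 ≤ (w j).re) →
    ‖(T : ℂ)⁻¹ * (∫ t in (0 : ℝ)..T,
        (∏ j, Sx (σ + (z j).re) (T ^ (1 / (4 * k : ℝ))) (t + (z j).im)) *
        (starRingEnd ℂ) (∏ j, Sx (σ + (w j).re) (T ^ (1 / (4 * k : ℝ))) (t + -(w j).im))) -
      ∑' n : ℕ, dT σ z w n‖ ≤ C * T ^ (-η) := by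
  obtain ⟨η, C, hη, hC, h⟩ := M3_rate k hσ hσ1
  have hk0 : (0 : ℝ) < k := by exact_mod_cast hk
  refine ⟨min (1 / 4) (η / (4 * k)), 4 * 4 ^ k + C, lt_min (by norm_num) (by positivity), by positivity,
    fun T hT z w hz hw => ?_⟩
  have hT0 : 0 < T := by linarith
  have hX0 : 0 < T ^ (1 / (4 * k : ℝ)) := by positivity
  have k1 := h _ hX0 z w hz hw
  set X : ℝ := T ^ (1 / (4 * k : ℝ)) with hXdef
  have s0 := (M3_real (k := k) hX0 σ).1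
  have b0 := M3_sum0 (k := k) (σ := σ) (by linarith) hX0
  obtain ⟨s1, b1⟩ := M3_sum1 (k := k) (σ := σ) (by linarith) hX0
  have hc0 : ∀ n : ℕ, 0 ≤ (ER X ^ k) (n + 1) * (n + 1 : ℝ) ^ (-σ) := fun n =>
    mul_nonneg (af_pow_nonneg (ER_nonneg X) _ _) (by positivity)
  have hn1 : ∀ (c : Fin k → ℂ) (_ : ∀ j, 0 ≤ (c j).re) (n : ℕ),
      ‖EK X c (n + 1) * (((n + 1 : ℝ) ^ (-σ) : ℝ) : ℂ)‖ ≤
      (ER X ^ k) (n + 1) * (n + 1 : ℝ) ^ (-σ) := by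
    intro c hc n
    rw [norm_mul, Complex.norm_real, Real.norm_of_nonneg (by positivity)]
    exact mul_le_mul_of_nonneg_right (EK_norm X hc (n + 1)) (by positivity)
  have hw' : ∀ j, 0 ≤ ((starRingEnd ℂ) (w j)).re := fun j => by
    rw [Complex.conj_re]; exact hw j
  have h4 := M1_mv hc0 (hn1 z hz) (hn1 (fun j => (starRingEnd ℂ) (w j)) hw') s0 s1 hT0.le
  simp_rw [← M3_prod hX0 σ, Complex.conj_re, Complex.conj_im] at h4
  have h5 : 4 * ((∑' n : ℕ, (ER X ^ k) (n + 1) * (n + 1 : ℝ) ^ (-σ)) *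
      ∑' n : ℕ, (n + 1 : ℝ) * ((ER X ^ k) (n + 1) * (n + 1 : ℝ) ^ (-σ))) ≤ 4 * 4 ^ k * X ^ (3 * k) := by
    have n1 : 0 ≤ ∑' n : ℕ, (n + 1 : ℝ) * ((ER X ^ k) (n + 1) * (n + 1 : ℝ) ^ (-σ)) :=
      tsum_nonneg fun n => mul_nonneg (by positivity) (hc0 n)
    calc 4 * ((∑' n : ℕ, (ER X ^ k) (n + 1) * (n + 1 : ℝ) ^ (-σ)) *
          ∑' n : ℕ, (n + 1 : ℝ) * ((ER X ^ k) (n + 1) * (n + 1 : ℝ) ^ (-σ)))
        ≤ 4 * (X ^ k * (4 * X ^ 2) ^ k) := by gcongr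
      _ = _ := by
          rw [mul_pow, ← pow_mul, show 3 * k = k + 2 * k by ring, pow_add]
          ring
  have h6 : T⁻¹ * X ^ (3 * k) = T ^ (-(1 / 4 : ℝ)) := by
    rw [hXdef, ← Real.rpow_natCast, ← Real.rpow_mul hT0.le, ← Real.rpow_neg_one,
      ← Real.rpow_add hT0]
    congr 1
    push_cast
    field_simp
    norm_num
  have k2 : ‖(T : ℂ)⁻¹ * (∫ t in (0 : ℝ)..T, (∏ j, Sx (σ + (z j).re) X (t + (z j).im)) *
        (starRingEnd ℂ) (∏ j, Sx (σ + (w j).re) X (t + -(w j).im))) -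
      (∑' n : ℕ, (EK X z (n + 1) * (((n + 1 : ℝ) ^ (-σ) : ℝ) : ℂ)) *
      (starRingEnd ℂ) (EK X (fun j => (starRingEnd ℂ) (w j)) (n + 1) *
        (((n + 1 : ℝ) ^ (-σ) : ℝ) : ℂ)))‖ ≤
      4 * 4 ^ k * T ^ (-(1 / 4 : ℝ)) := by
    have hTc : (T : ℂ) ≠ 0 := by exact_mod_cast hT0.ne'
    have e2 : ∀ u v : ℂ, (T : ℂ)⁻¹ * u - v = (T : ℂ)⁻¹ * (u - T * v) := by
      intro u v
      field_simp
    rw [e2, norm_mul, norm_inv, Complex.norm_real, Real.norm_of_nonneg hT0.le]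
    calc T⁻¹ * _ ≤ T⁻¹ * (4 * 4 ^ k * X ^ (3 * k)) :=
          mul_le_mul_of_nonneg_left (h4.trans h5) (inv_pos.2 hT0).le
      _ = 4 * 4 ^ k * (T⁻¹ * X ^ (3 * k)) := by ring
      _ = _ := by rw [h6]
  have k3 : X ^ (-η) = T ^ (-(η / (4 * k))) := by
    rw [hXdef, ← Real.rpow_mul hT0.le]
    congr 1
    field_simp
  rw [k3] at k1
  have k4 : T ^ (-(1 / 4 : ℝ)) ≤ T ^ (-(min (1 / 4) (η / (4 * k)))) :=
    Real.rpow_le_rpow_of_exponent_le hT (neg_le_neg (min_le_left _ _))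
  have k5 : T ^ (-(η / (4 * k))) ≤ T ^ (-(min (1 / 4) (η / (4 * k)))) :=
    Real.rpow_le_rpow_of_exponent_le hT (neg_le_neg (min_le_right _ _))
  refine (norm_sub_le_norm_sub_add_norm_sub _ _ _).trans ((add_le_add k2 k1).trans ?_)
  calc 4 * 4 ^ k * T ^ (-(1 / 4 : ℝ)) + C * T ^ (-(η / (4 * k)))
      ≤ 4 * 4 ^ k * T ^ (-(min (1 / 4) (η / (4 * k)))) + C * T ^ (-(min (1 / 4) (η / (4 * k)))) := by
        gcongr
    _ = _ := by ring

end OL
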