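import Pool.Agent.Lib.MP_069854_nt.R8.M4b

/-!
# The `2k`-th moment of `ζ - Sx` on shifted windows, uniform in the real part
-/

set_option autoImplicit false

open Complex MeasureTheory Set Filter Topology

namespace OL

lemma M4_exp {T : ℝ} (hT : 0 ≤ T) (x : ℝ) : ∫ t in (0 : ℝ)..T, Real.exp (-|t + x|) ≤ 2 := by
  rw [intervalIntegral.integral_of_le hT]
  have hi : Integrable fun t : ℝ => Real.exp (-|t + x|) := E4_w.1.comp_add_right x
  have h1 : ∫ t in Ioc 0 T, Real.exp (-|t + x|) ≤ ∫ t : ℝ, Real.exp (-|t + x|) :=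
    setIntegral_le_integral hi (Eventually.of_forall fun t => (Real.exp_pos _).le)
  have h2 : ∫ t : ℝ, Real.exp (-|t + x|) = ∫ t : ℝ, Real.exp (-|t|) :=
    integral_add_right_eq_self (fun t : ℝ => Real.exp (-|t|)) x
  rw [h2, E4_w.2] at h1
  exact h1

/-- the `2k`-th moment of `ζ - Sx` on shifted windows -/
theorem M4_diff {k : ℕ} (hk : 1 ≤ k) {s0 : ℝ} (h0 : 1 / 2 ≤ s0) (h1 : s0 < 1)
    (h : ∀ e : ℝ, 0 < e → ∃ C : ℝ, ∀ T : ℝ, 1 ≤ T →
      ∫ t in T..(2 * T), ‖riemannZeta (s0 + t * I)‖ ^ (2 * k) ≤ C * T ^ (1 + e))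
    {σ1 σ2 : ℝ} (hs : s0 < σ1) (h12 : σ1 ≤ σ2) (hs1 : σ2 < 1) :
    ∃ r C : ℝ, 0 < r ∧ 0 ≤ C ∧ ∀ σ : ℝ, σ1 ≤ σ → σ ≤ σ2 → ∀ T : ℝ, 1 ≤ T → ∀ x : ℝ, |x| ≤ T →
      (T⁻¹ * ∫ t in (0 : ℝ)..T, ‖riemannZeta (σ + (t + x : ℝ) * I) -
        Sx σ (T ^ (1 / (4 * k : ℝ))) (t + x)‖ ^ (2 * k)) ≤ C * T ^ (-r) := by
  set e : ℝ := (σ1 - s0) / 4 with he
  have he0 : 0 < e := by rw [he]; linarith
  have he1 : e ≤ 1 := by rw [he]; linarith
  have hk0 : (0 : ℝ) < k := by exact_mod_cast hk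
  set m : ℕ := 2 * k with hm
  have hm2 : 2 ≤ m := by omega
  have hmr : (m : ℝ) = 2 * k := by rw [hm]; push_cast; ring
  obtain ⟨C1, hC1⟩ := h e he0
  obtain ⟨A, hA0, hA⟩ := M4_GM m h0 h1 he0 he1 hC1
  obtain ⟨C, hC0, hC⟩ := smoothing_unif h0 hs h12 hs1
  set Q : ℝ := 2 ^ (m - 1) with hQ
  have hQ0 : 0 < Q := by positivity
  refine ⟨min e (3 / 4), Q * C ^ m * (2 + Q * A), lt_min he0 (by norm_num), by positivity,
    fun σ hσ1 hσ2 T hT x hx => ?_⟩
  have hT0 : 0 < T := by linarith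
  obtain ⟨g1, g2⟩ := hA T hT x hx
  set X : ℝ := T ^ (1 / (4 * k : ℝ)) with hX
  have hX1 : 1 ≤ X := Real.one_le_rpow hT (by positivity)
  have hX0 : 0 < X := by linarith
  -- pointwise
  have hpt : ∀ t ∈ Icc 0 T, ‖riemannZeta (σ + (t + x : ℝ) * I) - Sx σ X (t + x)‖ ^ m ≤
      Q * C ^ m * (X ^ (1 - σ1)) ^ m * Real.exp (-|t + x|) +
        Q * C ^ m * (X ^ (s0 - σ1)) ^ m * (Q * GM m s0 (t + x)) := by
    intro t _
    have b1 := hC σ hσ1 hσ2 X (t + x) hX1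
    have hZ0 : 0 ≤ Zl s0 (t + x) := by
      unfold Zl
      exact integral_nonneg fun y => by positivity
    have b2 : ‖riemannZeta (σ + (t + x : ℝ) * I) - Sx σ X (t + x)‖ ^ m ≤
        (C * (X ^ (1 - σ1) * Real.exp (-|t + x|)) + C * (X ^ (s0 - σ1) * Zl s0 (t + x))) ^ m := by
      refine pow_le_pow_left₀ (norm_nonneg _) (b1.trans (le_of_eq ?_)) m
      ring
    have b3 := add_pow_le (a := C * (X ^ (1 - σ1) * Real.exp (-|t + x|)))
      (b := C * (X ^ (s0 - σ1) * Zl s0 (t + x))) (by positivity) (by positivity) m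
    have b4 : Real.exp (-|t + x|) ^ m ≤ Real.exp (-|t + x|) := by
      have : Real.exp (-|t + x|) ≤ 1 := by
        rw [Real.exp_le_one_iff]
        linarith [abs_nonneg (t + x)]
      calc Real.exp (-|t + x|) ^ m ≤ Real.exp (-|t + x|) ^ 1 :=
            pow_le_pow_of_le_one (Real.exp_pos _).le this (by omega)
        _ = _ := pow_one _
    have b5 := M4_Zl hm2 h0 h1 (t + x)
    have n1 : 0 ≤ Q * C ^ m * (X ^ (1 - σ1)) ^ m := by positivity
    have n2 : 0 ≤ Q * C ^ m * (X ^ (s0 - σ1)) ^ m := by positivity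
    calc _ ≤ _ := b2
      _ ≤ _ := b3
      _ = Q * C ^ m * (X ^ (1 - σ1)) ^ m * Real.exp (-|t + x|) ^ m +
          Q * C ^ m * (X ^ (s0 - σ1)) ^ m * Zl s0 (t + x) ^ m := by
        rw [mul_pow, mul_pow, mul_pow, mul_pow]
        ring
      _ ≤ _ := add_le_add (mul_le_mul_of_nonneg_left b4 n1) (mul_le_mul_of_nonneg_left b5 n2)
  have hσ : σ < 1 := by linarith
  have hi1 : IntervalIntegrable (fun t : ℝ => ‖riemannZeta (σ + (t + x : ℝ) * I) -
      Sx σ X (t + x)‖ ^ m) volume 0 T :=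
    ((((zeta_cont hσ).comp (continuous_id.add continuous_const)).sub
      ((Sx_cont hX0 σ).comp (continuous_id.add continuous_const))).norm.pow m).intervalIntegrable _ _
  have hi2 : IntervalIntegrable (fun t : ℝ => Q * C ^ m * (X ^ (1 - σ1)) ^ m * Real.exp (-|t + x|))
      volume 0 T :=
    (Continuous.intervalIntegrable (by fun_prop) _ _)
  have hi3 : IntervalIntegrable (fun t : ℝ => Q * C ^ m * (X ^ (s0 - σ1)) ^ m * (Q * GM m s0 (t + x)))
      volume 0 T := (g1.const_mul Q).const_mul _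
  have hI := intervalIntegral.integral_mono_on hT0.le hi1 (hi2.add hi3) hpt
  rw [intervalIntegral.integral_add hi2 hi3, intervalIntegral.integral_const_mul,
    intervalIntegral.integral_const_mul, intervalIntegral.integral_const_mul] at hI
  have hexp := M4_exp hT0.le x
  have x1 : (X ^ (1 - σ1)) ^ m ≤ T ^ (1 / 4 : ℝ) := by
    rw [← Real.rpow_natCast, ← Real.rpow_mul hX0.le, hX, ← Real.rpow_mul hT0.le]
    refine Real.rpow_le_rpow_of_exponent_le hT ?_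
    rw [hmr]
    have : 1 / (4 * (k : ℝ)) * ((1 - σ1) * (2 * k)) = (1 - σ1) / 2 := by field_simp; ring
    rw [this]
    linarith
  have x2 : (X ^ (s0 - σ1)) ^ m = T ^ (-(2 * e)) := by
    rw [← Real.rpow_natCast, ← Real.rpow_mul hX0.le, hX, ← Real.rpow_mul hT0.le, he, hmr]
    congr 1
    field_simp
    ring
  have hfin : ∫ t in (0 : ℝ)..T, ‖riemannZeta (σ + (t + x : ℝ) * I) - Sx σ X (t + x)‖ ^ m ≤
      Q * C ^ m * (2 * T ^ (1 / 4 : ℝ) + Q * A * (T ^ (-(2 * e)) * T ^ (1 + e))) := by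
    refine hI.trans ?_
    rw [x2]
    have n0 : 0 ≤ Q * C ^ m := by positivity
    have n3 : 0 ≤ T ^ (-(2 * e)) := by positivity
    calc Q * C ^ m * (X ^ (1 - σ1)) ^ m * (∫ t in (0 : ℝ)..T, Real.exp (-|t + x|)) +
          Q * C ^ m * T ^ (-(2 * e)) * (Q * ∫ t in (0 : ℝ)..T, GM m s0 (t + x))
        ≤ Q * C ^ m * T ^ (1 / 4 : ℝ) * 2 +
          Q * C ^ m * T ^ (-(2 * e)) * (Q * (A * T ^ (1 + e))) := by
          apply add_le_add
          · exact mul_le_mul (mul_le_mul_of_nonneg_left x1 n0) hexp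
              (intervalIntegral.integral_nonneg hT0.le fun t _ => (Real.exp_pos _).le)
              (by positivity)
          · gcongr
      _ = _ := by ring
  have y1 : T⁻¹ * T ^ (1 / 4 : ℝ) = T ^ (-(3 / 4) : ℝ) := by
    rw [← Real.rpow_neg_one, ← Real.rpow_add hT0]
    congr 1
    norm_num
  have y2 : T⁻¹ * (T ^ (-(2 * e)) * T ^ (1 + e)) = T ^ (-e) := by
    rw [← Real.rpow_neg_one, ← Real.rpow_add hT0, ← Real.rpow_add hT0]
    congr 1
    ring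
  calc _ ≤ T⁻¹ * (Q * C ^ m * (2 * T ^ (1 / 4 : ℝ) + Q * A * (T ^ (-(2 * e)) * T ^ (1 + e)))) :=
        mul_le_mul_of_nonneg_left hfin (inv_pos.2 hT0).le
    _ = Q * C ^ m * (2 * (T⁻¹ * T ^ (1 / 4 : ℝ)) + Q * A * (T⁻¹ * (T ^ (-(2 * e)) * T ^ (1 + e)))) := by
        ring
    _ = Q * C ^ m * (2 * T ^ (-(3 / 4) : ℝ) + Q * A * T ^ (-e)) := by rw [y1, y2]
    _ ≤ Q * C ^ m * (2 * T ^ (-(min e (3 / 4))) + Q * A * T ^ (-(min e (3 / 4)))) := by
        have z1 : T ^ (-(3 / 4) : ℝ) ≤ T ^ (-(min e (3 / 4))) :=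
          Real.rpow_le_rpow_of_exponent_le hT (neg_le_neg (min_le_right _ _))
        have z2 : T ^ (-e) ≤ T ^ (-(min e (3 / 4))) :=
          Real.rpow_le_rpow_of_exponent_le hT (neg_le_neg (min_le_left _ _))
        gcongr
    _ = _ := by ring

end OL
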