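import Pool.Agent.Lib.MP_39df77_nt.OL.D1

/-!
# The smoothing step, uniform in the real part
-/

set_option autoImplicit false

open Complex MeasureTheory Set Filter Topology

namespace OL

/-- `ζ(σ + it)` minus its smoothed Dirichlet series of length `X`, uniformly for `σ1 ≤ σ ≤ σ2`. -/
theorem smoothing_unif {β σ1 σ2 : ℝ} (h0 : 1 / 2 ≤ β) (h1 : β < σ1) (_h12 : σ1 ≤ σ2) (h2 : σ2 < 1) :
    ∃ C : ℝ, 0 < C ∧ ∀ σ : ℝ, σ1 ≤ σ → σ ≤ σ2 → ∀ X t : ℝ, 1 ≤ X →
      ‖riemannZeta (σ + t * I) - Sx σ X t‖ ≤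
        C * (X ^ (1 - σ1) * Real.exp (-|t|) + X ^ (β - σ1) * Zl β t) := by
  obtain ⟨C1, hC1⟩ := S6.Gamma_decay (θ := 1) (a := 1 - σ2) (b := 1 - σ1) one_pos
    (by linarith [Real.pi_gt_three]) (by linarith)
  obtain ⟨C2, hC2⟩ := S6.Gamma_decay (θ := 1) (a := β - σ2 + 1) (b := β - σ1 + 1) one_pos
    (by linarith [Real.pi_gt_three]) (by linarith)
  have hd0 : 0 < σ1 - β := by linarith
  refine ⟨|C1| + |C2| / (σ1 - β) + 1, by positivity, fun σ hσ1 hσ2 X t hX => ?_⟩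
  set a : ℝ := β - σ with ha
  have ha0 : a < 0 := by rw [ha]; linarith
  have ha1 : -1 < a := by rw [ha]; linarith
  have hX0 : 0 < X := by linarith
  set s : ℂ := σ + t * I with hs
  have hsre : s.re = σ := by rw [hs]; simp
  have hsim : s.im = t := by rw [hs]; simp
  have key := D1_shift (s := s) (a := a) (b := 2) hX ha1 ha0 one_le_two
    (by rw [hsre, ha]; linarith) (by rw [hsre]; linarith) (by rw [hsre]; linarith)
  rw [D1_series (s := s) (by rw [hsre]; linarith) hX, ← D1_Sx] at key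
  set J : ℂ := ∫ y : ℝ, Gamma (a + y * I) * (X : ℂ) ^ (a + y * I : ℂ) *
    riemannZeta (s + (a + y * I)) with hJ
  have hXa : X ^ a ≤ X ^ (β - σ1) := Real.rpow_le_rpow_of_exponent_le hX (by rw [ha]; linarith)
  have hJb : ‖J‖ ≤ |C2| / (σ1 - β) * X ^ (β - σ1) * Zl β t := by
    have hmaj := (D1_Zl_int h0 (by linarith : β < 1) t).const_mul (|C2| / (σ1 - β) * X ^ (β - σ1))
    unfold Zl
    rw [← integral_const_mul]
    refine norm_integral_le_of_norm_le hmaj (Eventually.of_forall fun y => ?_)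
    have hw0 : (a + y * I : ℂ) ≠ 0 := by
      intro h
      have := congrArg Complex.re h
      simp at this
      exact ha0.ne this
    have e1 : ‖Gamma (a + y * I)‖ ≤ |C2| / (σ1 - β) * Real.exp (-|y|) := by
      have g1 := Gamma_add_one _ hw0
      have g2 := hC2 ((a + y * I : ℂ) + 1) (by simp [ha]; linarith) (by simp [ha]; linarith)
      have g3 : σ1 - β ≤ ‖(a + y * I : ℂ)‖ := by
        have h3 := Complex.abs_re_le_norm (a + y * I : ℂ)
        have h4 : |a| ≤ ‖(a + y * I : ℂ)‖ := by simpa using h3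
        have h5 : σ1 - β ≤ |a| := by rw [abs_of_neg ha0, ha]; linarith
        linarith
      rw [g1, norm_mul] at g2
      simp only [add_im, one_im, add_zero, one_mul, ofReal_im, mul_im, ofReal_re, I_im, mul_one,
        I_re, mul_zero, zero_add] at g2
      have g5 : (σ1 - β) * ‖Gamma (a + y * I)‖ ≤ |C2| * Real.exp (-|y|) :=
        (mul_le_mul_of_nonneg_right g3 (norm_nonneg _)).trans
          (g2.trans (mul_le_mul_of_nonneg_right (le_abs_self _) (Real.exp_pos _).le))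
      rw [div_mul_eq_mul_div, le_div_iff₀ hd0]
      linarith
    have e2 : ‖(X : ℂ) ^ (a + y * I : ℂ)‖ = X ^ a := by
      rw [D1_norm_cpow hX0]
      simp
    have e3 : s + (a + y * I : ℂ) = β + (t + y : ℝ) * I := by
      rw [hs, ha]
      push_cast
      ring
    rw [norm_mul, norm_mul, e2, e3]
    calc ‖Gamma (a + y * I)‖ * X ^ a * ‖riemannZeta (β + (t + y : ℝ) * I)‖
        ≤ (|C2| / (σ1 - β) * Real.exp (-|y|)) * X ^ (β - σ1) *
          ‖riemannZeta (β + (t + y : ℝ) * I)‖ := by gcongr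
      _ = _ := by ring
  have hP : ‖Gamma (1 - s) * (X : ℂ) ^ (1 - s)‖ ≤ |C1| * (X ^ (1 - σ1) * Real.exp (-|t|)) := by
    have g2 := hC1 (1 - s) (by simp [hsre]; linarith) (by simp [hsre]; linarith)
    rw [norm_mul, D1_norm_cpow hX0]
    have g3 : (1 - s).re = 1 - σ := by simp [hsre]
    have g4 : |(1 - s).im| = |t| := by simp [hsim]
    rw [g4, one_mul] at g2
    rw [g3]
    have g6 : X ^ (1 - σ) ≤ X ^ (1 - σ1) := Real.rpow_le_rpow_of_exponent_le hX (by linarith)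
    calc ‖Gamma (1 - s)‖ * X ^ (1 - σ) ≤ (|C1| * Real.exp (-|t|)) * X ^ (1 - σ1) := by
          gcongr
          exact g2.trans (mul_le_mul_of_nonneg_right (le_abs_self _) (Real.exp_pos _).le)
      _ = _ := by ring
  have hpi : (0 : ℝ) < 2 * Real.pi := by positivity
  have hpiC : (2 * (Real.pi : ℂ)) ≠ 0 := by exact_mod_cast hpi.ne'
  have e4 : riemannZeta s - Sx σ X t = -(Gamma (1 - s) * (X : ℂ) ^ (1 - s)) - (2 * Real.pi : ℂ)⁻¹ * J := by
    have : (2 * (Real.pi : ℂ)) * (riemannZeta s - Sx σ X t) =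
        (2 * (Real.pi : ℂ)) * (-(Gamma (1 - s) * (X : ℂ) ^ (1 - s)) - (2 * Real.pi : ℂ)⁻¹ * J) := by
      rw [mul_sub, mul_sub, ← mul_assoc (2 * (Real.pi : ℂ)) _ J, mul_inv_cancel₀ hpiC]
      linear_combination -key
    exact mul_left_cancel₀ hpiC this
  rw [e4]
  have hZ : 0 ≤ Zl β t := by
    unfold Zl
    exact integral_nonneg fun y => by positivity
  have e5 : ‖(2 * Real.pi : ℂ)⁻¹ * J‖ ≤ |C2| / (σ1 - β) * X ^ (β - σ1) * Zl β t := by
    rw [norm_mul, norm_inv]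
    have : ‖(2 * (Real.pi : ℂ))‖ = 2 * Real.pi := by
      have e : (2 * (Real.pi : ℂ)) = ((2 * Real.pi : ℝ) : ℂ) := by push_cast; rfl
      rw [e, Complex.norm_real, Real.norm_of_nonneg hpi.le]
    rw [this]
    have h5 : (2 * Real.pi)⁻¹ ≤ 1 := inv_le_one_of_one_le₀ (by linarith [Real.pi_gt_three])
    calc (2 * Real.pi)⁻¹ * ‖J‖ ≤ 1 * ‖J‖ := by gcongr
      _ ≤ _ := by rw [one_mul]; exact hJb
  refine (norm_sub_le _ _).trans ?_
  rw [norm_neg]
  have q1 : 0 ≤ X ^ (1 - σ1) * Real.exp (-|t|) := by positivity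
  have q2 : 0 ≤ X ^ (β - σ1) * Zl β t := by positivity
  have q3 : 0 ≤ |C2| / (σ1 - β) := by positivity
  have q4 : 0 ≤ |C1| := abs_nonneg _
  calc ‖Gamma (1 - s) * (X : ℂ) ^ (1 - s)‖ + ‖(2 * Real.pi : ℂ)⁻¹ * J‖
      ≤ |C1| * (X ^ (1 - σ1) * Real.exp (-|t|)) + |C2| / (σ1 - β) * X ^ (β - σ1) * Zl β t :=
        add_le_add hP e5
    _ = |C1| * (X ^ (1 - σ1) * Real.exp (-|t|)) + |C2| / (σ1 - β) * (X ^ (β - σ1) * Zl β t) := by ring
    _ ≤ _ := by nlinarith
end OL
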