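import Pool.Agent.Lib.MP_069854_nt.R8.M4a
import Pool.Agent.Lib.MP_39df77_nt.OL.E7

/-!
# The `2k`-th moment of `ζ - Sx` on shifted windows
-/

set_option autoImplicit false

open Complex MeasureTheory Set Filter Topology

namespace OL

/-- tangent inequality -/
lemma M4_tan {m : ℕ} (hm : 2 ≤ m) {x c : ℝ} (hx : 0 ≤ x) (hc : 0 ≤ c) :
    m * c ^ (m - 1) * x ≤ x ^ m + (m - 1) * c ^ m := by
  rcases hc.eq_or_lt with h | h
  · rw [← h, zero_pow (by omega), zero_pow (by omega)]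
    have : 0 ≤ x ^ m := by positivity
    simpa using this
  · have h1 := one_add_mul_le_pow (show (-2 : ℝ) ≤ x / c - 1 by
      have : 0 ≤ x / c := by positivity
      linarith) m
    have h2 : 1 + (x / c - 1) = x / c := by ring
    rw [h2, div_pow] at h1
    have h3 : 0 < c ^ m := by positivity
    have h4 : (1 + m * (x / c - 1)) * c ^ m ≤ x ^ m := by
      rw [← le_div_iff₀ h3]
      exact h1
    have h5 : c ^ m = c ^ (m - 1) * c := by
      rw [← pow_succ]
      congr 1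
      omega
    have h6 : (1 + m * (x / c - 1)) * c ^ m = m * c ^ (m - 1) * x - (m - 1) * c ^ m := by
      have : x / c * c ^ m = c ^ (m - 1) * x := by
        rw [h5]
        field_simp
      calc (1 + m * (x / c - 1)) * c ^ m = m * (x / c * c ^ m) - (m - 1) * c ^ m := by ring
        _ = _ := by rw [this]; ring
    linarith

lemma M4_jensen {m : ℕ} (hm : 2 ≤ m) {f w : ℝ → ℝ} (hf : ∀ y, 0 ≤ f y) (hw : ∀ y, 0 ≤ w y)
    (i1 : Integrable w) (h2 : ∫ y, w y = 2) (i2 : Integrable fun y => f y * w y)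
    (i3 : Integrable fun y => f y ^ m * w y) :
    (∫ y, f y * w y) ^ m ≤ 2 ^ (m - 1) * ∫ y, f y ^ m * w y := by
  set Z : ℝ := ∫ y, f y * w y with hZ
  have hZ0 : 0 ≤ Z := integral_nonneg fun y => mul_nonneg (hf y) (hw y)
  set c : ℝ := Z / 2 with hc
  have hc0 : 0 ≤ c := by positivity
  have h3 : ∫ y, m * c ^ (m - 1) * (f y * w y) ≤ ∫ y, (f y ^ m * w y + (m - 1) * c ^ m * w y) := by
    refine integral_mono (i2.const_mul _) (i3.add (i1.const_mul _)) fun y => ?_
    have := mul_le_mul_of_nonneg_right (M4_tan hm (hf y) hc0) (hw y)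
    calc m * c ^ (m - 1) * (f y * w y) = m * c ^ (m - 1) * f y * w y := by ring
      _ ≤ (f y ^ m + (m - 1) * c ^ m) * w y := this
      _ = _ := by ring
  rw [integral_const_mul, integral_add i3 (i1.const_mul _), integral_const_mul, h2, ← hZ] at h3
  have h5 : c ^ m = c ^ (m - 1) * c := by
    rw [← pow_succ]
    congr 1
    omega
  have h6 : Z = 2 * c := by rw [hc]; ring
  have h7 : 2 * c ^ m ≤ ∫ y, f y ^ m * w y := by
    rw [h6, h5] at h3
    rw [h5]
    nlinarith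
  have h8 : Z ^ m = 2 ^ (m - 1) * (2 * c ^ m) := by
    rw [h6, mul_pow, ← mul_assoc, ← pow_succ]
    congr 2
    omega
  rw [h8]
  exact mul_le_mul_of_nonneg_left h7 (by positivity)

lemma M4_cont {s0 : ℝ} (h1 : s0 < 1) (m : ℕ) :
    Continuous fun u : ℝ => ‖riemannZeta (s0 + (u : ℝ) * I)‖ ^ m :=
  (zeta_cont h1).norm.pow m

/-- the smoothed `m`-th power -/
noncomputable def GM (m : ℕ) (s0 t : ℝ) : ℝ :=
  ∫ y : ℝ, ‖riemannZeta (s0 + (t + y : ℝ) * I)‖ ^ m * Real.exp (-|y|)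

/-- the constant of the majorant -/
noncomputable def cM (m : ℕ) : ℝ := (m + 2).factorial * Real.exp 1

lemma cM_pos (m : ℕ) : 0 < cM m := by
  unfold cM
  have := Nat.factorial_pos (m + 2)
  positivity

lemma M4_maj (m : ℕ) (y : ℝ) : (1 + |y|) ^ m * Real.exp (-|y|) ≤ cM m * (1 + y ^ 2)⁻¹ := by
  have hy := abs_nonneg y
  have hf : (0 : ℝ) < ((m + 2).factorial : ℝ) := by exact_mod_cast Nat.factorial_pos _
  have h1 : (1 + |y|) ^ (m + 2) / ((m + 2).factorial : ℝ) ≤ Real.exp (1 + |y|) :=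
    Real.pow_div_factorial_le_exp (1 + |y|) (by positivity) (m + 2)
  rw [Real.exp_add, div_le_iff₀ hf] at h1
  have h2 : Real.exp |y| * Real.exp (-|y|) = 1 := by rw [← Real.exp_add]; simp
  have h3 : (1 + |y|) ^ (m + 2) * Real.exp (-|y|) ≤ cM m := by
    have h4 := mul_le_mul_of_nonneg_right h1 (Real.exp_pos (-|y|)).le
    have h5 : Real.exp 1 * Real.exp |y| * ((m + 2).factorial : ℝ) * Real.exp (-|y|) = cM m := by
      unfold cM
      calc _ = ((m + 2).factorial : ℝ) * Real.exp 1 * (Real.exp |y| * Real.exp (-|y|)) := by ring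
        _ = _ := by rw [h2, mul_one]
    linarith
  rw [← div_eq_mul_inv, le_div_iff₀ (by positivity)]
  have h5 : 1 + y ^ 2 ≤ (1 + |y|) ^ 2 := by nlinarith [sq_abs y]
  have hE := (Real.exp_pos (-|y|)).le
  calc (1 + |y|) ^ m * Real.exp (-|y|) * (1 + y ^ 2)
      ≤ (1 + |y|) ^ m * Real.exp (-|y|) * (1 + |y|) ^ 2 := by gcongr
    _ = (1 + |y|) ^ (m + 2) * Real.exp (-|y|) := by rw [pow_add]; ring
    _ ≤ _ := h3

lemma M4_bound (m : ℕ) {s0 K : ℝ} (hK1 : 1 ≤ K)
    (hK : ∀ u : ℝ, ‖riemannZeta (s0 + (u : ℝ) * I)‖ ≤ K * (1 + |u|))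
    {T t : ℝ} (ht : |t| ≤ T) (y : ℝ) :
    ‖riemannZeta (s0 + (t + y : ℝ) * I)‖ ^ m * Real.exp (-|y|) ≤
      K ^ m * (1 + T) ^ m * cM m * (1 + y ^ 2)⁻¹ := by
  have hy := abs_nonneg y
  have ht0 := abs_nonneg t
  have h1 : ‖riemannZeta (s0 + (t + y : ℝ) * I)‖ ≤ K * ((1 + T) * (1 + |y|)) := by
    refine (hK (t + y)).trans ?_
    have h2 : 1 + |t + y| ≤ (1 + T) * (1 + |y|) := by
      have := abs_add_le t y
      nlinarith
    exact mul_le_mul_of_nonneg_left h2 (by linarith)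
  have h2 : ‖riemannZeta (s0 + (t + y : ℝ) * I)‖ ^ m ≤ (K * ((1 + T) * (1 + |y|))) ^ m :=
    pow_le_pow_left₀ (norm_nonneg _) h1 m
  have hT : 0 ≤ 1 + T := by linarith
  calc _ ≤ (K * ((1 + T) * (1 + |y|))) ^ m * Real.exp (-|y|) := by gcongr
    _ = K ^ m * (1 + T) ^ m * ((1 + |y|) ^ m * Real.exp (-|y|)) := by
        rw [mul_pow, mul_pow]
        ring
    _ ≤ K ^ m * (1 + T) ^ m * (cM m * (1 + y ^ 2)⁻¹) := by
        have := M4_maj m y
        gcongr
    _ = _ := by ring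

lemma M4_GMint (m : ℕ) {s0 : ℝ} (h0 : 1 / 2 ≤ s0) (h1 : s0 < 1) (t : ℝ) :
    Integrable fun y : ℝ => ‖riemannZeta (s0 + (t + y : ℝ) * I)‖ ^ m * Real.exp (-|y|) := by
  obtain ⟨K, hK1, hK⟩ := E4_growth h0 h1
  have hmaj : Integrable fun y : ℝ => K ^ m * (1 + |t|) ^ m * cM m * (1 + y ^ 2)⁻¹ :=
    integrable_inv_one_add_sq.const_mul _
  refine hmaj.mono' (Continuous.aestronglyMeasurable ?_) (Eventually.of_forall fun y => ?_)
  · exact ((M4_cont h1 m).comp (continuous_const.add continuous_id)).mul (by fun_prop)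
  · rw [Real.norm_of_nonneg (by positivity)]
    exact M4_bound m hK1 hK le_rfl y

lemma M4_Zl {m : ℕ} (hm : 2 ≤ m) {s0 : ℝ} (h0 : 1 / 2 ≤ s0) (h1 : s0 < 1) (t : ℝ) :
    Zl s0 t ^ m ≤ 2 ^ (m - 1) * GM m s0 t := by
  unfold Zl GM
  exact M4_jensen hm (f := fun y => ‖riemannZeta (s0 + (t + y : ℝ) * I)‖)
    (w := fun y => Real.exp (-|y|)) (fun y => norm_nonneg _) (fun y => (Real.exp_pos _).le)
    E4_w.1 E4_w.2 (D1_Zl_int h0 h1 t) (M4_GMint m h0 h1 t)

/-- the smoothed moment on shifted windows -/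
theorem M4_GM (m : ℕ) {s0 e C : ℝ} (h0 : 1 / 2 ≤ s0) (h1 : s0 < 1) (he : 0 < e) (he1 : e ≤ 1)
    (h : ∀ T : ℝ, 1 ≤ T → ∫ t in T..(2 * T), ‖riemannZeta (s0 + t * I)‖ ^ m ≤ C * T ^ (1 + e)) :
    ∃ A : ℝ, 0 ≤ A ∧ ∀ T : ℝ, 1 ≤ T → ∀ x : ℝ, |x| ≤ T →
      IntervalIntegrable (fun t => GM m s0 (t + x)) volume 0 T ∧
      ∫ t in (0 : ℝ)..T, GM m s0 (t + x) ≤ A * T ^ (1 + e) := by
  have hcont := M4_cont h1 m
  obtain ⟨A, hA0, hA⟩ := E4_double hcont (fun u => by positivity) he h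
  obtain ⟨K, hK1, hK⟩ := E4_growth h0 h1
  -- symmetric integrals
  have hsym : ∀ u : ℝ, ‖riemannZeta (s0 + ((-u : ℝ) : ℂ) * I)‖ ^ m =
      ‖riemannZeta (s0 + (u : ℝ) * I)‖ ^ m := by
    intro u
    have : (s0 + ((-u : ℝ) : ℂ) * I) = (starRingEnd ℂ) (s0 + (u : ℝ) * I) := by
      simp
    rw [this, riemannZeta_conj, Complex.norm_conj]
  have hint : ∀ a b : ℝ, IntervalIntegrable (fun u : ℝ => ‖riemannZeta (s0 + (u : ℝ) * I)‖ ^ m)
      volume a b := fun a b => hcont.intervalIntegrable a b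
  have hwin : ∀ T : ℝ, 1 ≤ T → ∀ x : ℝ, |x| ≤ T → ∀ y : ℝ,
      ∫ t in (0 : ℝ)..T, ‖riemannZeta (s0 + (t + x + y : ℝ) * I)‖ ^ m ≤
      8 * A * T ^ (1 + e) * (1 + |y|) ^ 2 := by
    intro T hT x hx y
    have hy := abs_nonneg y
    have hxy : |x + y| ≤ T + |y| := (abs_add_le x y).trans (by linarith)
    set U : ℝ := 2 * T + |y| with hU
    have hU1 : 1 ≤ U := by linarith
    have e1 : ∫ t in (0 : ℝ)..T, ‖riemannZeta (s0 + (t + x + y : ℝ) * I)‖ ^ m =
        ∫ t in (x + y)..(T + (x + y)), ‖riemannZeta (s0 + (t : ℝ) * I)‖ ^ m := by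
      have := intervalIntegral.integral_comp_add_right (a := 0) (b := T)
        (fun u : ℝ => ‖riemannZeta (s0 + (u : ℝ) * I)‖ ^ m) (x + y)
      rw [zero_add] at this
      rw [← this]
      congr 1
      funext t
      rw [add_assoc]
    have e2 : ∫ t in (x + y)..(T + (x + y)), ‖riemannZeta (s0 + (t : ℝ) * I)‖ ^ m ≤
        ∫ t in (-U)..U, ‖riemannZeta (s0 + (t : ℝ) * I)‖ ^ m := by
      have a1 : -U ≤ x + y := by
        have := neg_abs_le (x + y)
        linarith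
      have a2 : T + (x + y) ≤ U := by
        have := le_abs_self (x + y)
        linarith
      rw [← intervalIntegral.integral_add_adjacent_intervals (hint (-U) (x + y)) (hint (x + y) U),
        ← intervalIntegral.integral_add_adjacent_intervals (hint (x + y) (T + (x + y)))
          (hint (T + (x + y)) U)]
      have b1 : 0 ≤ ∫ t in (-U)..(x + y), ‖riemannZeta (s0 + (t : ℝ) * I)‖ ^ m :=
        intervalIntegral.integral_nonneg a1 fun t _ => by positivity
      have b2 : 0 ≤ ∫ t in (T + (x + y))..U, ‖riemannZeta (s0 + (t : ℝ) * I)‖ ^ m :=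
        intervalIntegral.integral_nonneg a2 fun t _ => by positivity
      linarith
    have e3 : ∫ t in (-U)..U, ‖riemannZeta (s0 + (t : ℝ) * I)‖ ^ m =
        2 * ∫ t in (0 : ℝ)..U, ‖riemannZeta (s0 + (t : ℝ) * I)‖ ^ m := by
      rw [← intervalIntegral.integral_add_adjacent_intervals (hint (-U) 0) (hint 0 U)]
      have h3 : ∫ t in (-U)..0, ‖riemannZeta (s0 + (t : ℝ) * I)‖ ^ m =
          ∫ t in (0 : ℝ)..U, ‖riemannZeta (s0 + (t : ℝ) * I)‖ ^ m := by
        have h4 := intervalIntegral.integral_comp_neg (a := 0) (b := U)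
          (fun u : ℝ => ‖riemannZeta (s0 + (u : ℝ) * I)‖ ^ m)
        rw [neg_zero] at h4
        rw [← h4]
        congr 1
        funext t
        exact hsym t
      rw [h3]
      ring
    have e4 := hA U hU1
    have e5 : U ^ (1 + e) ≤ 4 * (T ^ (1 + e) * (1 + |y|) ^ 2) := by
      have h5 : U ≤ 2 * T * (1 + |y|) := by
        rw [hU]
        nlinarith
      have h6 : (1 + |y|) ^ (1 + e) ≤ (1 + |y|) ^ 2 := by
        rw [← Real.rpow_natCast]
        exact Real.rpow_le_rpow_of_exponent_le (by linarith) (by push_cast; linarith)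
      have h7 : (2 : ℝ) ^ (1 + e) ≤ 4 := by
        have : (2 : ℝ) ^ (1 + e) ≤ 2 ^ (2 : ℝ) :=
          Real.rpow_le_rpow_of_exponent_le one_le_two (by linarith)
        refine this.trans (le_of_eq ?_)
        norm_num
      calc U ^ (1 + e) ≤ (2 * T * (1 + |y|)) ^ (1 + e) :=
            Real.rpow_le_rpow (by linarith) h5 (by linarith)
        _ = 2 ^ (1 + e) * T ^ (1 + e) * (1 + |y|) ^ (1 + e) := by
            rw [Real.mul_rpow (by linarith) (by linarith), Real.mul_rpow (by norm_num) (by linarith)]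
        _ ≤ 4 * T ^ (1 + e) * (1 + |y|) ^ 2 := by gcongr
        _ = _ := by ring
    rw [e1]
    refine e2.trans ?_
    rw [e3]
    calc 2 * ∫ t in (0 : ℝ)..U, ‖riemannZeta (s0 + (t : ℝ) * I)‖ ^ m ≤ 2 * (A * U ^ (1 + e)) := by
          gcongr
      _ ≤ 2 * (A * (4 * (T ^ (1 + e) * (1 + |y|) ^ 2))) := by gcongr
      _ = _ := by ring
  refine ⟨8 * A * ∫ y : ℝ, (1 + |y|) ^ 2 * Real.exp (-|y|), ?_, ?_⟩
  · have : 0 ≤ ∫ y : ℝ, (1 + |y|) ^ 2 * Real.exp (-|y|) := integral_nonneg fun y => by positivity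
    positivity
  intro T hT x hx
  have hT0 : (0 : ℝ) ≤ T := by linarith
  -- Fubini
  set F : ℝ × ℝ → ℝ := fun z => ‖riemannZeta (s0 + (z.1 + x + z.2 : ℝ) * I)‖ ^ m * Real.exp (-|z.2|)
    with hF
  have hFc : Continuous F := by
    have h2 : Continuous fun z : ℝ × ℝ => ‖riemannZeta (s0 + (z.1 + x + z.2 : ℝ) * I)‖ ^ m :=
      hcont.comp ((continuous_fst.add continuous_const).add continuous_snd)
    exact h2.mul (by fun_prop)
  have hconst : Integrable (fun _ : ℝ => K ^ m * (1 + 2 * T) ^ m * cM m)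
      (volume.restrict (Ioc 0 T)) := by
    exact integrable_const _
  have hFi : Integrable F ((volume.restrict (Ioc 0 T)).prod volume) := by
    have hm := hconst.mul_prod integrable_inv_one_add_sq (μ := volume.restrict (Ioc 0 T))
      (ν := (volume : Measure ℝ))
    refine hm.mono' hFc.aestronglyMeasurable ?_
    have hae : ∀ᵐ z : ℝ × ℝ ∂((volume.restrict (Ioc 0 T)).prod volume), z.1 ∈ Ioc 0 T := by
      have := (Measure.quasiMeasurePreserving_fst (μ := volume.restrict (Ioc (0 : ℝ) T))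
        (ν := (volume : Measure ℝ))).ae (ae_restrict_mem measurableSet_Ioc)
      exact this
    filter_upwards [hae] with z hz
    rw [Real.norm_of_nonneg (by positivity)]
    refine M4_bound m hK1 hK ?_ z.2
    have h1 := abs_add_le z.1 x
    have h2 : |z.1| ≤ T := by rw [abs_of_pos hz.1]; exact hz.2
    linarith
  have hG : ∀ t, GM m s0 (t + x) = ∫ y : ℝ, F (t, y) := fun t => rfl
  have hGi : Integrable (fun t => GM m s0 (t + x)) (volume.restrict (Ioc 0 T)) :=
    hFi.integral_prod_left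
  refine ⟨(intervalIntegrable_iff_integrableOn_Ioc_of_le hT0).2 hGi, ?_⟩
  rw [intervalIntegral.integral_of_le hT0]
  have e6 : ∫ t in Ioc 0 T, GM m s0 (t + x) = ∫ y : ℝ, ∫ t in Ioc 0 T, F (t, y) := by
    have := integral_integral_swap (μ := volume.restrict (Ioc 0 T)) (ν := (volume : Measure ℝ))
      (f := fun t y => F (t, y)) hFi
    exact this
  rw [e6]
  have hmaj : Integrable fun y : ℝ => (1 + |y|) ^ 2 * Real.exp (-|y|) := by
    have hm : Integrable fun y : ℝ => cM 2 * (1 + y ^ 2)⁻¹ :=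
      integrable_inv_one_add_sq.const_mul _
    refine hm.mono' (Continuous.aestronglyMeasurable (by fun_prop)) (Eventually.of_forall fun y => ?_)
    rw [Real.norm_of_nonneg (by positivity)]
    exact M4_maj 2 y
  have e7 : ∫ y : ℝ, ∫ t in Ioc 0 T, F (t, y) ≤
      ∫ y : ℝ, 8 * A * T ^ (1 + e) * ((1 + |y|) ^ 2 * Real.exp (-|y|)) := by
    refine integral_mono hFi.integral_prod_right (hmaj.const_mul _) fun y => ?_
    have h8 : ∫ t in Ioc 0 T, F (t, y) =
        (∫ t in (0 : ℝ)..T, ‖riemannZeta (s0 + (t + x + y : ℝ) * I)‖ ^ m) * Real.exp (-|y|) := by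
      rw [intervalIntegral.integral_of_le hT0, ← integral_mul_const]
    show ∫ t in Ioc 0 T, F (t, y) ≤ _
    rw [h8]
    calc _ ≤ (8 * A * T ^ (1 + e) * (1 + |y|) ^ 2) * Real.exp (-|y|) :=
          mul_le_mul_of_nonneg_right (hwin T hT x hx y) (Real.exp_pos _).le
      _ = _ := by ring
  refine e7.trans (le_of_eq ?_)
  rw [integral_const_mul]
  ring

end OL
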