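import Mathlib

/-! M5: products of functions which are close in mean of order `m`. -/

set_option autoImplicit false

namespace OL

open MeasureTheory

/-- difference of two products -/
private theorem M5_prod_sub {ι : Type*} [DecidableEq ι] (a b : ι → ℂ) {x y : ℝ} (hx : 0 ≤ x) (hy : 0 ≤ y)
    (ha : ∀ i, ‖a i‖ ≤ y) (hb : ∀ i, ‖b i‖ ≤ y) (hab : ∀ i, ‖a i - b i‖ ≤ x) (s : Finset ι) :
    ‖∏ i ∈ s, a i - ∏ i ∈ s, b i‖ ≤ s.card * (x * y ^ (s.card - 1)) := by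
  induction s using Finset.induction_on with
  | empty => simp
  | insert j s hj ih =>
    rw [Finset.prod_insert hj, Finset.prod_insert hj, Finset.card_insert_of_notMem hj, Nat.add_sub_cancel]
    have e : a j * ∏ i ∈ s, a i - b j * ∏ i ∈ s, b i =
        (a j - b j) * ∏ i ∈ s, a i + b j * (∏ i ∈ s, a i - ∏ i ∈ s, b i) := by ring
    rw [e]
    have h1 : ‖∏ i ∈ s, a i‖ ≤ y ^ s.card := by
      rw [norm_prod, ← Finset.prod_const]
      exact Finset.prod_le_prod (fun i _ => norm_nonneg _) fun i _ => ha i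
    have h2 : ‖(a j - b j) * ∏ i ∈ s, a i‖ ≤ x * y ^ s.card := by
      rw [norm_mul]
      exact mul_le_mul (hab j) h1 (norm_nonneg _) hx
    have h3 : ‖b j * (∏ i ∈ s, a i - ∏ i ∈ s, b i)‖ ≤ s.card * (x * y ^ s.card) := by
      rw [norm_mul]
      refine (mul_le_mul (hb j) ih (norm_nonneg _) hy).trans ?_
      rcases Nat.eq_zero_or_pos s.card with h0 | h0
      · rw [h0]
        simp
      · have e2 : y ^ s.card = y * y ^ (s.card - 1) := by
          rw [← pow_succ', Nat.sub_add_cancel h0]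
        rw [e2]
        apply le_of_eq
        ring
    refine (norm_add_le _ _).trans ((add_le_add h2 h3).trans (le_of_eq ?_))
    push_cast
    ring

private theorem M5_young {m : ℕ} (hm1 : 1 ≤ m) {x y L : ℝ} (hx : 0 ≤ x) (hy : 0 ≤ y) (hL : 0 < L) :
    x * y ^ (m - 1) ≤ x ^ m / L ^ (m - 1) + L * y ^ m := by
  obtain ⟨k, rfl⟩ : ∃ k, m = k + 1 := ⟨m - 1, by omega⟩
  rw [Nat.add_sub_cancel]
  rcases le_total x (L * y) with h | h
  · have h1 : x * y ^ k ≤ L * y * y ^ k := mul_le_mul_of_nonneg_right h (by positivity)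
    have h2 : 0 ≤ x ^ (k + 1) / L ^ k := by positivity
    have h3 : L * y ^ (k + 1) = L * y * y ^ k := by ring
    linarith
  · have h1 : y ≤ x / L := by
      rw [le_div_iff₀ hL, mul_comm]
      exact h
    have h2 : y ^ k ≤ (x / L) ^ k := pow_le_pow_left₀ hy h1 k
    have h3 : x * y ^ k ≤ x * (x / L) ^ k := mul_le_mul_of_nonneg_left h2 hx
    have h4 : x * (x / L) ^ k = x ^ (k + 1) / L ^ k := by
      rw [div_pow, pow_succ]
      ring
    have h5 : 0 ≤ L * y ^ (k + 1) := by positivity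
    linarith

/-- the pointwise bound -/
private theorem M5_point {ι : Type*} [Fintype ι] [DecidableEq ι] {m : ℕ} (hm : Fintype.card ι = m) (hm1 : 1 ≤ m)
    {L : ℝ} (hL : 0 < L) (a b : ι → ℂ) :
    ‖∏ i, a i - ∏ i, b i‖ ≤ m * ((∑ i, ‖a i - b i‖ ^ m) / L ^ (m - 1) + L * ∑ i, (‖a i‖ ^ m + ‖b i‖ ^ m)) := by
  have hne : Nonempty ι := Fintype.card_pos_iff.1 (by omega)
  obtain ⟨i0, -, hi0⟩ := Finset.exists_max_image Finset.univ (fun i => ‖a i - b i‖) Finset.univ_nonempty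
  obtain ⟨i1, -, hi1⟩ := Finset.exists_max_image Finset.univ (fun i => max ‖a i‖ ‖b i‖) Finset.univ_nonempty
  set x : ℝ := ‖a i0 - b i0‖ with hx
  set y : ℝ := max ‖a i1‖ ‖b i1‖ with hy
  have hx0 : 0 ≤ x := norm_nonneg _
  have hy0 : 0 ≤ y := le_max_of_le_left (norm_nonneg _)
  have h1 := M5_prod_sub a b hx0 hy0 (fun i => (le_max_left _ _).trans (hi1 i (Finset.mem_univ i)))
    (fun i => (le_max_right _ _).trans (hi1 i (Finset.mem_univ i))) (fun i => hi0 i (Finset.mem_univ i)) Finset.univ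
  rw [Finset.card_univ, hm] at h1
  have h2 := M5_young hm1 hx0 hy0 hL
  have h3 : x ^ m ≤ ∑ i, ‖a i - b i‖ ^ m :=
    Finset.single_le_sum (f := fun i => ‖a i - b i‖ ^ m) (fun i _ => by positivity) (Finset.mem_univ i0)
  have h4 : y ^ m ≤ ∑ i, (‖a i‖ ^ m + ‖b i‖ ^ m) := by
    have h5 : y ^ m ≤ ‖a i1‖ ^ m + ‖b i1‖ ^ m := by
      rcases max_choice ‖a i1‖ ‖b i1‖ with h | h
      · rw [hy, h]
        have : 0 ≤ ‖b i1‖ ^ m := by positivity
        linarith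
      · rw [hy, h]
        have : 0 ≤ ‖a i1‖ ^ m := by positivity
        linarith
    exact h5.trans (Finset.single_le_sum (f := fun i => ‖a i‖ ^ m + ‖b i‖ ^ m) (fun i _ => by positivity)
      (Finset.mem_univ i1))
  refine h1.trans (mul_le_mul_of_nonneg_left (h2.trans ?_) (Nat.cast_nonneg m))
  gcongr

theorem M5_prod {ι : Type*} [Fintype ι] [DecidableEq ι] {m : ℕ} (hm : Fintype.card ι = m) (hm1 : 1 ≤ m) {M : ℝ}
    (hM : 1 ≤ M) :
    ∃ C : ℝ, 0 ≤ C ∧ ∀ (A B : ι → ℝ → ℂ), (∀ i, Continuous (A i)) → (∀ i, Continuous (B i)) →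
      ∀ (T D : ℝ), 0 < T → 0 < D → D ≤ 1 →
      (∀ i, T⁻¹ * (∫ t in (0 : ℝ)..T, ‖A i t - B i t‖ ^ m) ≤ D) →
      (∀ i, T⁻¹ * (∫ t in (0 : ℝ)..T, ‖A i t‖ ^ m) ≤ M) →
      (∀ i, T⁻¹ * (∫ t in (0 : ℝ)..T, ‖B i t‖ ^ m) ≤ M) →
      ‖(T : ℂ)⁻¹ * (∫ t in (0 : ℝ)..T, ∏ i, A i t) - (T : ℂ)⁻¹ * ∫ t in (0 : ℝ)..T, ∏ i, B i t‖ ≤
        C * D ^ (1 / m : ℝ) := by
  have hmR : (0 : ℝ) < m := by exact_mod_cast hm1
  refine ⟨m * (m * (1 + 2 * M)), by positivity, fun A B hA hB T D hT hD hD1 h1 h2 h3 => ?_⟩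
  set L : ℝ := D ^ (1 / m : ℝ) with hL
  have hL0 : 0 < L := Real.rpow_pos_of_pos hD _
  have hLm : L ^ m = D := by
    rw [hL, one_div]
    exact Real.rpow_inv_natCast_pow hD.le (by omega)
  have hLm1 : D / L ^ (m - 1) = L := by
    rw [div_eq_iff (by positivity), ← hLm, ← pow_succ', Nat.sub_add_cancel hm1]
  have hcA : Continuous fun t => ∏ i, A i t := continuous_finsetProd _ fun i _ => hA i
  have hcB : Continuous fun t => ∏ i, B i t := continuous_finsetProd _ fun i _ => hB i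
  rw [← mul_sub, ← intervalIntegral.integral_sub (hcA.intervalIntegrable _ _) (hcB.intervalIntegrable _ _), norm_mul,
    norm_inv, Complex.norm_real, Real.norm_of_nonneg hT.le]
  have hcD : ∀ i, Continuous fun t => ‖A i t - B i t‖ ^ m := fun i => ((hA i).sub (hB i)).norm.pow m
  have hcA' : ∀ i, Continuous fun t => ‖A i t‖ ^ m := fun i => (hA i).norm.pow m
  have hcB' : ∀ i, Continuous fun t => ‖B i t‖ ^ m := fun i => (hB i).norm.pow m
  have hcS : Continuous fun t => ∑ i, ‖A i t - B i t‖ ^ m := continuous_finsetSum _ fun i _ => hcD i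
  have hcS' : Continuous fun t => ∑ i, (‖A i t‖ ^ m + ‖B i t‖ ^ m) :=
    continuous_finsetSum _ fun i _ => (hcA' i).add (hcB' i)
  have h4 : ‖∫ t in (0 : ℝ)..T, (∏ i, A i t - ∏ i, B i t)‖ ≤ ∫ t in (0 : ℝ)..T,
      m * ((∑ i, ‖A i t - B i t‖ ^ m) / L ^ (m - 1) + L * ∑ i, (‖A i t‖ ^ m + ‖B i t‖ ^ m)) := by
    refine (intervalIntegral.norm_integral_le_integral_norm hT.le).trans ?_
    apply intervalIntegral.integral_mono_on hT.le
    · exact ((hcA.sub hcB).norm).intervalIntegrable _ _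
    · exact (continuous_const.mul ((hcS.div_const _).add (continuous_const.mul hcS'))).intervalIntegrable _ _
    · intro t _
      exact M5_point hm hm1 hL0 (fun i => A i t) fun i => B i t
  have h5 : (∫ t in (0 : ℝ)..T,
      m * ((∑ i, ‖A i t - B i t‖ ^ m) / L ^ (m - 1) + L * ∑ i, (‖A i t‖ ^ m + ‖B i t‖ ^ m))) =
      m * ((∑ i, ∫ t in (0 : ℝ)..T, ‖A i t - B i t‖ ^ m) / L ^ (m - 1) +
        L * ∑ i, ((∫ t in (0 : ℝ)..T, ‖A i t‖ ^ m) + ∫ t in (0 : ℝ)..T, ‖B i t‖ ^ m)) := by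
    have hcAB : ∀ i, Continuous fun t => ‖A i t‖ ^ m + ‖B i t‖ ^ m := fun i => (hcA' i).add (hcB' i)
    have hc1 : Continuous fun t => (∑ i, ‖A i t - B i t‖ ^ m) / L ^ (m - 1) := hcS.div_const _
    have hc2 : Continuous fun t => L * ∑ i, (‖A i t‖ ^ m + ‖B i t‖ ^ m) := continuous_const.mul hcS'
    rw [intervalIntegral.integral_const_mul, intervalIntegral.integral_add
      (hc1.intervalIntegrable _ _) (hc2.intervalIntegrable _ _),
      intervalIntegral.integral_div, intervalIntegral.integral_const_mul,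
      intervalIntegral.integral_finsetSum fun i _ => (hcD i).intervalIntegrable _ _,
      intervalIntegral.integral_finsetSum fun i _ => (hcAB i).intervalIntegrable _ _]
    congr 3
    refine Finset.sum_congr rfl fun i _ => ?_
    exact intervalIntegral.integral_add ((hcA' i).intervalIntegrable _ _) ((hcB' i).intervalIntegrable _ _)
  rw [h5] at h4
  have hTi : 0 < T⁻¹ := inv_pos.2 hT
  refine (mul_le_mul_of_nonneg_left h4 hTi.le).trans ?_
  have e1 : T⁻¹ * (m * ((∑ i, ∫ t in (0 : ℝ)..T, ‖A i t - B i t‖ ^ m) / L ^ (m - 1) +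
        L * ∑ i, ((∫ t in (0 : ℝ)..T, ‖A i t‖ ^ m) + ∫ t in (0 : ℝ)..T, ‖B i t‖ ^ m))) =
      m * ((∑ i, T⁻¹ * ∫ t in (0 : ℝ)..T, ‖A i t - B i t‖ ^ m) / L ^ (m - 1) +
        L * ∑ i, ((T⁻¹ * ∫ t in (0 : ℝ)..T, ‖A i t‖ ^ m) + T⁻¹ * ∫ t in (0 : ℝ)..T, ‖B i t‖ ^ m)) := by
    simp only [← mul_add]
    rw [← Finset.mul_sum, ← Finset.mul_sum]
    ring
  rw [e1]
  have h6 : (∑ i, T⁻¹ * ∫ t in (0 : ℝ)..T, ‖A i t - B i t‖ ^ m) ≤ m * D := by
    refine (Finset.sum_le_sum fun i _ => h1 i).trans (le_of_eq ?_)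
    rw [Finset.sum_const, Finset.card_univ, hm, nsmul_eq_mul]
  have h7 : (∑ i, ((T⁻¹ * ∫ t in (0 : ℝ)..T, ‖A i t‖ ^ m) + T⁻¹ * ∫ t in (0 : ℝ)..T, ‖B i t‖ ^ m)) ≤ m * (2 * M) := by
    refine (Finset.sum_le_sum fun i _ => add_le_add (h2 i) (h3 i)).trans (le_of_eq ?_)
    rw [Finset.sum_const, Finset.card_univ, hm, nsmul_eq_mul]
    ring
  have h8 : (m * D) / L ^ (m - 1) = m * L := by rw [mul_div_assoc, hLm1]
  calc m * ((∑ i, T⁻¹ * ∫ t in (0 : ℝ)..T, ‖A i t - B i t‖ ^ m) / L ^ (m - 1) +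
        L * ∑ i, ((T⁻¹ * ∫ t in (0 : ℝ)..T, ‖A i t‖ ^ m) + T⁻¹ * ∫ t in (0 : ℝ)..T, ‖B i t‖ ^ m))
      ≤ m * ((m * D) / L ^ (m - 1) + L * (m * (2 * M))) := by gcongr
    _ = m * (m * (1 + 2 * M)) * L := by rw [h8]; ring

end OL
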