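import Pool.Agent.Lib.MP_069854_nt.R8.M3b
import Pool.Agent.Lib.MP_069854_nt.R8.M4
import Pool.Agent.Lib.MP_069854_nt.R8.M5

/-!
# Shifted moments off the critical line
-/

set_option autoImplicit false

open Complex MeasureTheory Set Filter Topology

namespace OL

/-- norm of the diagonal -/
lemma dT_tsum_norm {k : ℕ} {σ : ℝ} (hσ : 1 / 2 < σ) {z w : Fin k → ℂ} (hz : ∀ j, 0 ≤ (z j).re)
    (hw : ∀ j, 0 ≤ (w j).re) :
    ‖∑' n : ℕ, dT σ z w n‖ ≤ ∑' n : ℕ, (oneR ^ k) (n + 1) ^ 2 * (n + 1 : ℝ) ^ (-(2 * σ)) :=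
  tsum_of_norm_bounded (oneR_sq_summable k (s := 2 * σ) (by linarith)).hasSum
    fun n => dT_norm σ hz hw n

/-- the `2k`-th moment of the shifted smoothed series is bounded -/
lemma M6_S {k : ℕ} (hk : 1 ≤ k) {σ1 : ℝ} (hσ : 1 / 2 < σ1) (hσ1 : σ1 < 1) : ∃ C : ℝ, 0 ≤ C ∧
    ∀ σ : ℝ, σ1 ≤ σ → ∀ T : ℝ, 1 ≤ T → ∀ x : ℝ,
    T⁻¹ * (∫ t in (0 : ℝ)..T, ‖Sx σ (T ^ (1 / (4 * k : ℝ))) (t + x)‖ ^ (2 * k)) ≤ C := by
  obtain ⟨η, C, hη, hC, h⟩ := M3_mean hk hσ hσ1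
  refine ⟨C + ∑' n : ℕ, (oneR ^ k) (n + 1) ^ 2 * (n + 1 : ℝ) ^ (-(2 * σ1)),
    add_nonneg hC (tsum_nonneg fun n => by positivity), fun σ hs1 T hT x => ?_⟩
  have hT0 : 0 < T := by linarith
  have q1 : ∀ _ : Fin k, 0 ≤ (((σ - σ1 : ℝ) : ℂ) + (x : ℝ) * I).re := fun _ => by simp; linarith
  have q2 : ∀ _ : Fin k, 0 ≤ (((σ - σ1 : ℝ) : ℂ) + ((-x : ℝ) : ℂ) * I).re := fun _ => by
    simp; linarith
  have h1 := h T hT (fun _ => ((σ - σ1 : ℝ) : ℂ) + (x : ℝ) * I)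
    (fun _ => ((σ - σ1 : ℝ) : ℂ) + ((-x : ℝ) : ℂ) * I) q1 q2
  have h2 := dT_tsum_norm (k := k) hσ q1 q2
  have r1 : (((σ - σ1 : ℝ) : ℂ) + (x : ℝ) * I).re = σ - σ1 := by simp
  have r2 : (((σ - σ1 : ℝ) : ℂ) + ((-x : ℝ) : ℂ) * I).re = σ - σ1 := by simp
  have r3 : (((σ - σ1 : ℝ) : ℂ) + (x : ℝ) * I).im = x := by simp
  have r4 : (((σ - σ1 : ℝ) : ℂ) + ((-x : ℝ) : ℂ) * I).im = -x := by simp
  have r5 : σ1 + (σ - σ1) = σ := by ring
  simp only [r1, r2, r3, r4, r5, neg_neg] at h1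
  have e1 : ∀ t : ℝ, (∏ _j : Fin k, Sx σ (T ^ (1 / (4 * k : ℝ))) (t + x)) *
        (starRingEnd ℂ) (∏ _j : Fin k, Sx σ (T ^ (1 / (4 * k : ℝ))) (t + x)) =
      ((‖Sx σ (T ^ (1 / (4 * k : ℝ))) (t + x)‖ ^ (2 * k) : ℝ) : ℂ) := by
    intro t
    rw [Complex.mul_conj, Finset.prod_const, Finset.card_univ, Fintype.card_fin, map_pow,
      Complex.normSq_eq_norm_sq, ← pow_mul]
  simp_rw [e1] at h1
  rw [intervalIntegral.integral_ofReal] at h1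
  have e2 : (T : ℂ)⁻¹ * ((∫ t in (0 : ℝ)..T, ‖Sx σ (T ^ (1 / (4 * k : ℝ))) (t + x)‖ ^ (2 * k) : ℝ) : ℂ) =
      ((T⁻¹ * (∫ t in (0 : ℝ)..T, ‖Sx σ (T ^ (1 / (4 * k : ℝ))) (t + x)‖ ^ (2 * k)) : ℝ) : ℂ) := by
    push_cast
    rfl
  rw [e2] at h1
  have h3 := norm_sub_norm_le (((T⁻¹ * (∫ t in (0 : ℝ)..T, ‖Sx σ (T ^ (1 / (4 * k : ℝ))) (t + x)‖ ^ (2 * k)) : ℝ) : ℂ))
    (∑' n : ℕ, dT σ1 (fun _ : Fin k => ((σ - σ1 : ℝ) : ℂ) + (x : ℝ) * I)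
    (fun _ => ((σ - σ1 : ℝ) : ℂ) + ((-x : ℝ) : ℂ) * I) n)
  rw [Complex.norm_real, Real.norm_eq_abs] at h3
  have h4 := le_abs_self (T⁻¹ * (∫ t in (0 : ℝ)..T, ‖Sx σ (T ^ (1 / (4 * k : ℝ))) (t + x)‖ ^ (2 * k)))
  have h5 : T ^ (-η) ≤ 1 := Real.rpow_le_one_of_one_le_of_nonpos hT (by linarith)
  have h6 : C * T ^ (-η) ≤ C := mul_le_of_le_one_right hC h5
  linarith

/-- the `2k`-th moment of the shifted zeta function is bounded -/
lemma M6_zeta {k : ℕ} (hk : 1 ≤ k) {s0 : ℝ} (h0 : 1 / 2 ≤ s0) (h1 : s0 < 1)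
    (h : ∀ e : ℝ, 0 < e → ∃ C : ℝ, ∀ T : ℝ, 1 ≤ T →
      ∫ t in T..(2 * T), ‖riemannZeta (s0 + t * I)‖ ^ (2 * k) ≤ C * T ^ (1 + e))
    {σ1 σ2 : ℝ} (hs : s0 < σ1) (h12 : σ1 ≤ σ2) (hs1 : σ2 < 1) : ∃ C : ℝ, 0 ≤ C ∧
    ∀ σ : ℝ, σ1 ≤ σ → σ ≤ σ2 → ∀ T : ℝ, 1 ≤ T → ∀ x : ℝ, |x| ≤ T →
    T⁻¹ * (∫ t in (0 : ℝ)..T, ‖riemannZeta (σ + (t + x : ℝ) * I)‖ ^ (2 * k)) ≤ C := by
  obtain ⟨r, C, hr, hC, hd⟩ := M4_diff hk h0 h1 h hs h12 hs1
  obtain ⟨D, hD, hb⟩ := M6_S hk (show 1 / 2 < σ1 by linarith) (by linarith)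
  refine ⟨2 ^ (2 * k - 1) * (C + D), by positivity, fun σ hσ1 hσ2 T hT x hx => ?_⟩
  have hT0 : 0 < T := by linarith
  have hX0 : 0 < T ^ (1 / (4 * k : ℝ)) := by positivity
  have a1 := hd σ hσ1 hσ2 T hT x hx
  have a2 := hb σ hσ1 T hT x
  set X : ℝ := T ^ (1 / (4 * k : ℝ)) with hX
  have c1 : Continuous fun t : ℝ => riemannZeta (σ + (t + x : ℝ) * I) :=
    (zeta_cont (by linarith : σ < 1)).comp (continuous_id.add continuous_const)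
  have c2 : Continuous fun t : ℝ => Sx σ X (t + x) :=
    (Sx_cont hX0 σ).comp (continuous_id.add continuous_const)
  have hpt : ∀ t : ℝ, ‖riemannZeta (σ + (t + x : ℝ) * I)‖ ^ (2 * k) ≤
      2 ^ (2 * k - 1) * (‖riemannZeta (σ + (t + x : ℝ) * I) - Sx σ X (t + x)‖ ^ (2 * k) +
        ‖Sx σ X (t + x)‖ ^ (2 * k)) := by
    intro t
    have b1 : ‖riemannZeta (σ + (t + x : ℝ) * I)‖ ≤
        ‖riemannZeta (σ + (t + x : ℝ) * I) - Sx σ X (t + x)‖ + ‖Sx σ X (t + x)‖ := by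
      simpa using norm_add_le (riemannZeta (σ + (t + x : ℝ) * I) - Sx σ X (t + x)) (Sx σ X (t + x))
    exact (pow_le_pow_left₀ (norm_nonneg _) b1 _).trans
      (add_pow_le (norm_nonneg _) (norm_nonneg _) _)
  have i1 : IntervalIntegrable (fun t : ℝ => ‖riemannZeta (σ + (t + x : ℝ) * I) - Sx σ X (t + x)‖ ^ (2 * k))
      volume 0 T := ((c1.sub c2).norm.pow _).intervalIntegrable _ _
  have i2 : IntervalIntegrable (fun t : ℝ => ‖Sx σ X (t + x)‖ ^ (2 * k)) volume 0 T :=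
    (c2.norm.pow _).intervalIntegrable _ _
  have h2 := intervalIntegral.integral_mono_on hT0.le
    ((c1.norm.pow (2 * k)).intervalIntegrable 0 T) ((i1.add i2).const_mul (2 ^ (2 * k - 1)))
    (fun t _ => hpt t)
  rw [intervalIntegral.integral_const_mul, intervalIntegral.integral_add i1 i2] at h2
  have h5 : T ^ (-r) ≤ 1 := Real.rpow_le_one_of_one_le_of_nonpos hT (by linarith)
  have h6 : C * T ^ (-r) ≤ C := mul_le_of_le_one_right hC h5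
  calc T⁻¹ * (∫ t in (0 : ℝ)..T, ‖riemannZeta (σ + (t + x : ℝ) * I)‖ ^ (2 * k))
      ≤ T⁻¹ * (2 ^ (2 * k - 1) * ((∫ t in (0 : ℝ)..T,
        ‖riemannZeta (σ + (t + x : ℝ) * I) - Sx σ X (t + x)‖ ^ (2 * k)) +
          ∫ t in (0 : ℝ)..T, ‖Sx σ X (t + x)‖ ^ (2 * k))) :=
        mul_le_mul_of_nonneg_left h2 (inv_pos.2 hT0).le
    _ = 2 ^ (2 * k - 1) * ((T⁻¹ * ∫ t in (0 : ℝ)..T,
        ‖riemannZeta (σ + (t + x : ℝ) * I) - Sx σ X (t + x)‖ ^ (2 * k)) +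
          T⁻¹ * ∫ t in (0 : ℝ)..T, ‖Sx σ X (t + x)‖ ^ (2 * k)) := by ring
    _ ≤ _ := by
        refine mul_le_mul_of_nonneg_left ?_ (by positivity)
        linarith

/-- **shifted moments off the critical line**, from a moment bound on the line `s0`; shifts
relative to the line `σ1` -/
theorem recipe_rel {k : ℕ} (hk : 1 ≤ k) {s0 : ℝ} (h0 : 1 / 2 ≤ s0) (h1 : s0 < 1)
    (h : ∀ e : ℝ, 0 < e → ∃ C : ℝ, ∀ T : ℝ, 1 ≤ T →
      ∫ t in T..(2 * T), ‖riemannZeta (s0 + t * I)‖ ^ (2 * k) ≤ C * T ^ (1 + e))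
    {σ1 σ2 : ℝ} (hs : s0 < σ1) (h12 : σ1 ≤ σ2) (hs1 : σ2 < 1) :
    ∃ η C : ℝ, 0 < η ∧ ∀ T : ℝ, 1 ≤ T → ∀ z w : Fin k → ℂ,
      (∀ j, 0 ≤ (z j).re ∧ σ1 + (z j).re ≤ σ2 ∧ |(z j).im| ≤ T) →
      (∀ j, 0 ≤ (w j).re ∧ σ1 + (w j).re ≤ σ2 ∧ |(w j).im| ≤ T) →
      ‖(T : ℂ)⁻¹ * (∫ t in (0 : ℝ)..T, ∏ j, (riemannZeta (σ1 + z j + t * I) *
        riemannZeta (σ1 + w j - t * I))) - ∑' n : ℕ, dT σ1 z w n‖ ≤ C * T ^ (-η) := by
  have hσ : 1 / 2 < σ1 := by linarith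
  have hk0 : (0 : ℝ) < k := by exact_mod_cast hk
  obtain ⟨r, C1, hr, hC1, hd⟩ := M4_diff hk h0 h1 h hs h12 hs1
  obtain ⟨C2, hC2, hz⟩ := M6_zeta hk h0 h1 h hs h12 hs1
  obtain ⟨C3, hC3, hS⟩ := M6_S hk hσ (by linarith)
  obtain ⟨η, C4, hη, hC4, hm⟩ := M3_mean hk hσ (by linarith)
  set M : ℝ := C1 + C2 + C3 + 1 with hM
  have hM1 : 1 ≤ M := by rw [hM]; linarith
  obtain ⟨C5, hC5, h5⟩ := M5_prod (ι := Fin k ⊕ Fin k) (m := 2 * k) (by simp; ring) (by omega) hM1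
  -- normalise the functions so that the differences are at most `T^{-r}`
  have hl0 : 0 < M ^ (1 / (2 * k : ℝ)) := Real.rpow_pos_of_pos (by linarith) _
  set l : ℝ := M ^ (1 / (2 * k : ℝ)) with hl
  have hlM : l ^ (2 * k) = M := by
    rw [hl, ← Real.rpow_natCast, ← Real.rpow_mul (by linarith)]
    push_cast
    rw [one_div_mul_cancel (by positivity), Real.rpow_one]
  refine ⟨min (r / (2 * k)) η, M * C5 + C4, lt_min (by positivity) hη, fun T hT z w hzj hwj => ?_⟩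
  have hT0 : 0 < T := by linarith
  have hX0 : 0 < T ^ (1 / (4 * k : ℝ)) := by positivity
  have m1 := hm T hT z w (fun j => (hzj j).1) (fun j => (hwj j).1)
  have z1 : ∀ j, σ1 ≤ σ1 + (z j).re := fun j => by linarith [(hzj j).1]
  have w1 : ∀ j, σ1 ≤ σ1 + (w j).re := fun j => by linarith [(hwj j).1]
  have z2 : ∀ j, σ1 + (z j).re ≤ σ2 := fun j => (hzj j).2.1
  have w2 : ∀ j, σ1 + (w j).re ≤ σ2 := fun j => (hwj j).2.1
  have ha1 := fun j => hd _ (z1 j) (z2 j) T hT (z j).im (hzj j).2.2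
  have hb' : ∀ j, |-((w j).im)| ≤ T := fun j => by rw [abs_neg]; exact (hwj j).2.2
  have hb1 := fun j => hd _ (w1 j) (w2 j) T hT (-((w j).im)) (hb' j)
  have ha2 := fun j => hz _ (z1 j) (z2 j) T hT (z j).im (hzj j).2.2
  have hb2 := fun j => hz _ (w1 j) (w2 j) T hT (-((w j).im)) (hb' j)
  have ha3 := fun j => hS _ (z1 j) T hT (z j).im
  have hb3 := fun j => hS _ (w1 j) T hT (-((w j).im))
  set X : ℝ := T ^ (1 / (4 * k : ℝ)) with hX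
  set A : Fin k ⊕ Fin k → ℝ → ℂ := Sum.elim
    (fun j t => riemannZeta ((σ1 + (z j).re : ℝ) + (t + (z j).im : ℝ) * I))
    (fun j t => (starRingEnd ℂ) (riemannZeta ((σ1 + (w j).re : ℝ) + (t + -((w j).im) : ℝ) * I))) with hA
  set B : Fin k ⊕ Fin k → ℝ → ℂ := Sum.elim (fun j t => Sx (σ1 + (z j).re) X (t + (z j).im))
    (fun j t => (starRingEnd ℂ) (Sx (σ1 + (w j).re) X (t + -((w j).im)))) with hB
  have cz : ∀ σ x : ℝ, σ ≤ σ2 → Continuous fun t : ℝ => riemannZeta (σ + (t + x : ℝ) * I) :=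
    fun σ x hσ => (zeta_cont (by linarith : σ < 1)).comp (continuous_id.add continuous_const)
  have cs : ∀ σ x : ℝ, Continuous fun t : ℝ => Sx σ X (t + x) := fun σ x =>
    (Sx_cont hX0 σ).comp (continuous_id.add continuous_const)
  have hlc : ((l : ℝ) : ℂ) ≠ 0 := by exact_mod_cast hl0.ne'
  have hln : ‖((l : ℝ) : ℂ)⁻¹‖ ^ (2 * k) = M⁻¹ := by
    rw [norm_inv, Complex.norm_real, Real.norm_of_nonneg hl0.le, inv_pow, hlM]
  have hM0 : 0 < M := by linarith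
  have hMi1 : M⁻¹ ≤ 1 := inv_le_one_of_one_le₀ hM1
  -- scaling of the moments
  have hscale : ∀ f : ℝ → ℂ, T⁻¹ * (∫ t in (0 : ℝ)..T, ‖((l : ℝ) : ℂ)⁻¹ * f t‖ ^ (2 * k)) =
      M⁻¹ * (T⁻¹ * (∫ t in (0 : ℝ)..T, ‖f t‖ ^ (2 * k))) := by
    intro f
    have e : ∀ t, ‖((l : ℝ) : ℂ)⁻¹ * f t‖ ^ (2 * k) = M⁻¹ * ‖f t‖ ^ (2 * k) := by
      intro t
      rw [norm_mul, mul_pow, hln]
    simp_rw [e]
    rw [intervalIntegral.integral_const_mul]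
    ring
  have hTr1 : T ^ (-r) ≤ 1 := Real.rpow_le_one_of_one_le_of_nonpos hT (by linarith)
  have hconj : ∀ σ x : ℝ, ∀ t : ℝ, ‖(starRingEnd ℂ) (riemannZeta ((σ : ℝ) + (t + x : ℝ) * I)) -
      (starRingEnd ℂ) (Sx σ X (t + x))‖ = ‖riemannZeta ((σ : ℝ) + (t + x : ℝ) * I) - Sx σ X (t + x)‖ := by
    intro σ x t
    rw [← map_sub, Complex.norm_conj]
  have k5 := h5 (fun i t => ((l : ℝ) : ℂ)⁻¹ * A i t) (fun i t => ((l : ℝ) : ℂ)⁻¹ * B i t)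
    (by
      rintro (j | j)
      · exact continuous_const.mul (cz _ _ (z2 j))
      · exact continuous_const.mul (Complex.continuous_conj.comp (cz _ _ (w2 j))))
    (by
      rintro (j | j)
      · exact continuous_const.mul (cs _ _)
      · exact continuous_const.mul (Complex.continuous_conj.comp (cs _ _)))
    T (T ^ (-r)) hT0 (by positivity) hTr1
    (by
      intro i
      have e : ∀ t, ((l : ℝ) : ℂ)⁻¹ * A i t - ((l : ℝ) : ℂ)⁻¹ * B i t =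
          ((l : ℝ) : ℂ)⁻¹ * (A i t - B i t) := fun t => by ring
      simp_rw [e]
      rw [hscale]
      have hD : T⁻¹ * (∫ t in (0 : ℝ)..T, ‖A i t - B i t‖ ^ (2 * k)) ≤ C1 * T ^ (-r) := by
        rcases i with j | j
        · exact ha1 j
        · simp only [hA, hB, Sum.elim_inr, hconj]
          exact hb1 j
      calc M⁻¹ * _ ≤ M⁻¹ * (C1 * T ^ (-r)) := mul_le_mul_of_nonneg_left hD (inv_pos.2 hM0).le
        _ ≤ M⁻¹ * (M * T ^ (-r)) := by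
            have : C1 ≤ M := by rw [hM]; linarith
            gcongr
        _ = T ^ (-r) := by field_simp)
    (by
      intro i
      rw [hscale]
      have hD : T⁻¹ * (∫ t in (0 : ℝ)..T, ‖A i t‖ ^ (2 * k)) ≤ M := by
        have : C2 ≤ M := by rw [hM]; linarith
        rcases i with j | j
        · exact (ha2 j).trans this
        · simp only [hA, Sum.elim_inr, Complex.norm_conj]
          exact (hb2 j).trans this
      have hn : 0 ≤ T⁻¹ * (∫ t in (0 : ℝ)..T, ‖A i t‖ ^ (2 * k)) :=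
        mul_nonneg (inv_pos.2 hT0).le (intervalIntegral.integral_nonneg hT0.le fun t _ => by positivity)
      nlinarith)
    (by
      intro i
      rw [hscale]
      have hD : T⁻¹ * (∫ t in (0 : ℝ)..T, ‖B i t‖ ^ (2 * k)) ≤ M := by
        have : C3 ≤ M := by rw [hM]; linarith
        rcases i with j | j
        · exact (ha3 j).trans this
        · simp only [hB, Sum.elim_inr, Complex.norm_conj]
          exact (hb3 j).trans this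
      have hn : 0 ≤ T⁻¹ * (∫ t in (0 : ℝ)..T, ‖B i t‖ ^ (2 * k)) :=
        mul_nonneg (inv_pos.2 hT0).le (intervalIntegral.integral_nonneg hT0.le fun t _ => by positivity)
      nlinarith)
  -- undo the scaling
  have hprod : ∀ F : Fin k ⊕ Fin k → ℝ → ℂ, (∫ t in (0 : ℝ)..T, ∏ i, ((l : ℝ) : ℂ)⁻¹ * F i t) =
      (M : ℂ)⁻¹ * ∫ t in (0 : ℝ)..T, ∏ i, F i t := by
    intro F
    have e : ∀ t, ∏ i, ((l : ℝ) : ℂ)⁻¹ * F i t = (M : ℂ)⁻¹ * ∏ i, F i t := by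
      intro t
      rw [Finset.prod_mul_distrib, Finset.prod_const, Finset.card_univ, Fintype.card_sum,
        Fintype.card_fin, ← two_mul, inv_pow, ← hlM]
      push_cast
      rfl
    simp_rw [e]
    rw [intervalIntegral.integral_const_mul]
  rw [hprod, hprod] at k5
  have hMc : (M : ℂ) ≠ 0 := by exact_mod_cast hM0.ne'
  have k6 : ‖(T : ℂ)⁻¹ * (∫ t in (0 : ℝ)..T, ∏ i, A i t) - (T : ℂ)⁻¹ * ∫ t in (0 : ℝ)..T, ∏ i, B i t‖ ≤
      M * C5 * T ^ (-(r / (2 * k))) := by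
    have e : (T : ℂ)⁻¹ * ((M : ℂ)⁻¹ * (∫ t in (0 : ℝ)..T, ∏ i, A i t)) -
        (T : ℂ)⁻¹ * ((M : ℂ)⁻¹ * ∫ t in (0 : ℝ)..T, ∏ i, B i t) = (M : ℂ)⁻¹ *
        ((T : ℂ)⁻¹ * (∫ t in (0 : ℝ)..T, ∏ i, A i t) - (T : ℂ)⁻¹ * ∫ t in (0 : ℝ)..T, ∏ i, B i t) := by
      ring
    rw [e, norm_mul, norm_inv, Complex.norm_real, Real.norm_of_nonneg hM0.le,
      inv_mul_le_iff₀ hM0, ← Real.rpow_mul hT0.le] at k5
    refine k5.trans (le_of_eq ?_)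
    rw [← mul_assoc]
    congr 2
    push_cast
    ring
  have e1 : ∀ t : ℝ, ∏ i, A i t = ∏ j, (riemannZeta (σ1 + z j + t * I) *
        riemannZeta (σ1 + w j - t * I)) := by
    intro t
    rw [Fintype.prod_sum_type, ← Finset.prod_mul_distrib]
    refine Finset.prod_congr rfl fun j _ => ?_
    simp only [hA, Sum.elim_inl, Sum.elim_inr]
    rw [← riemannZeta_conj]
    congr 2
    · conv_rhs => rw [← Complex.re_add_im (z j)]
      push_cast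
      ring
    · conv_rhs => rw [← Complex.re_add_im (w j)]
      simp only [map_add, map_mul, conj_ofReal, conj_I]
      push_cast
      ring
  have e2 : ∀ t : ℝ, ∏ i, B i t = (∏ j, Sx (σ1 + (z j).re) X (t + (z j).im)) *
        (starRingEnd ℂ) (∏ j, Sx (σ1 + (w j).re) X (t + -((w j).im))) := by
    intro t
    rw [Fintype.prod_sum_type, map_prod]
    rfl
  simp_rw [e1, e2] at k6
  have k4 : T ^ (-(r / (2 * k))) ≤ T ^ (-(min (r / (2 * k)) η)) :=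
    Real.rpow_le_rpow_of_exponent_le hT (neg_le_neg (min_le_left _ _))
  have k7 : T ^ (-η) ≤ T ^ (-(min (r / (2 * k)) η)) :=
    Real.rpow_le_rpow_of_exponent_le hT (neg_le_neg (min_le_right _ _))
  refine (norm_sub_le_norm_sub_add_norm_sub _ _ _).trans ((add_le_add k6 m1).trans ?_)
  calc M * C5 * T ^ (-(r / (2 * k))) + C4 * T ^ (-η)
      ≤ M * C5 * T ^ (-(min (r / (2 * k)) η)) + C4 * T ^ (-(min (r / (2 * k)) η)) := by
        gcongr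
    _ = _ := by ring

end OL
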