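import Pool.Agent.Lib.MP_069854_nt.R8.M6

/-!
# Shifted moments off the critical line: absolute shifts
-/

set_option autoImplicit false

open Complex MeasureTheory Set Filter Topology

namespace OL

/-- the diagonal in absolute shifts -/
lemma M7_term {k : ℕ} (hk : 1 ≤ k) (σ : ℝ) (α β : Fin k → ℂ) (n : ℕ) :
    DA α (n + 1) * DA β (n + 1) / ((n + 1 : ℕ) : ℂ) =
      dT σ (fun j => α j - ((σ - 1 / 2 : ℝ) : ℂ)) (fun j => β j - ((σ - 1 / 2 : ℝ) : ℂ)) n := by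
  have hne : (Finset.univ : Finset (Fin k)).Nonempty := ⟨⟨0, hk⟩, Finset.mem_univ _⟩
  have hn1 : n + 1 ≠ 0 := Nat.succ_ne_zero n
  have hn : (0 : ℝ) < n + 1 := by positivity
  have h1 : ∀ γ : Fin k → ℂ, DA γ (n + 1) = ((n + 1 : ℕ) : ℂ) ^ (-((σ - 1 / 2 : ℝ) : ℂ)) *
      DA (fun j => γ j - ((σ - 1 / 2 : ℝ) : ℂ)) (n + 1) := by
    intro γ
    have := pwA_prod_shift (fun j => γ j - ((σ - 1 / 2 : ℝ) : ℂ)) ((σ - 1 / 2 : ℝ) : ℂ)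
      (Finset.univ : Finset (Fin k)) hn1 hne
    simp only [add_sub_cancel] at this
    exact this
  unfold dT
  rw [h1 α, h1 β]
  have h2 : ((n + 1 : ℕ) : ℂ) ^ (-((σ - 1 / 2 : ℝ) : ℂ)) =
      (((n + 1 : ℝ) ^ (-(σ - 1 / 2)) : ℝ) : ℂ) := by
    rw [ofReal_cpow hn.le]
    push_cast
    rfl
  have h3 : (((n + 1 : ℝ) ^ (-(2 * σ)) : ℝ) : ℂ) =
      (((n + 1 : ℝ) ^ (-(σ - 1 / 2)) : ℝ) : ℂ) * (((n + 1 : ℝ) ^ (-(σ - 1 / 2)) : ℝ) : ℂ) /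
        ((n + 1 : ℕ) : ℂ) := by
    have : (n + 1 : ℝ) ^ (-(2 * σ)) =
        (n + 1 : ℝ) ^ (-(σ - 1 / 2)) * (n + 1 : ℝ) ^ (-(σ - 1 / 2)) / (n + 1 : ℝ) := by
      rw [← Real.rpow_add hn, div_eq_mul_inv, ← Real.rpow_neg_one (n + 1 : ℝ), ← Real.rpow_add hn]
      congr 1
      ring
    rw [this]
    push_cast
    rfl
  rw [h2, h3]
  ring

/-- absolute convergence of the diagonal -/
lemma M7_summable {k : ℕ} (hk : 1 ≤ k) {σ : ℝ} (hσ : 1 / 2 < σ) {α β : Fin k → ℂ}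
    (ha : ∀ j, σ - 1 / 2 ≤ (α j).re) (hb : ∀ j, σ - 1 / 2 ≤ (β j).re) :
    Summable fun n : ℕ => ‖DA α n * DA β n / (n : ℂ)‖ := by
  rw [← summable_nat_add_iff 1]
  refine (dT_summable hσ (z := fun j => α j - ((σ - 1 / 2 : ℝ) : ℂ))
    (w := fun j => β j - ((σ - 1 / 2 : ℝ) : ℂ)) (fun j => ?_) (fun j => ?_)).congr fun n => ?_
  · rw [Complex.sub_re, Complex.ofReal_re]
    linarith [ha j]
  · rw [Complex.sub_re, Complex.ofReal_re]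
    linarith [hb j]
  · rw [M7_term hk σ]

/-- **shifted moments off the critical line**, from a moment bound on the line `s0` -/
theorem recipe_abs {k : ℕ} (hk : 1 ≤ k) {s0 : ℝ} (h0 : 1 / 2 ≤ s0) (h1 : s0 < 1)
    (h : ∀ e : ℝ, 0 < e → ∃ C : ℝ, ∀ T : ℝ, 1 ≤ T →
      ∫ t in T..(2 * T), ‖riemannZeta (s0 + t * I)‖ ^ (2 * k) ≤ C * T ^ (1 + e))
    {σ1 σ2 : ℝ} (hs : s0 < σ1) (h12 : σ1 ≤ σ2) (hs1 : σ2 < 1) :
    ∃ η C : ℝ, 0 < η ∧ ∀ T : ℝ, 1 ≤ T → ∀ α β : Fin k → ℂ,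
      (∀ j, σ1 - 1 / 2 ≤ (α j).re ∧ (α j).re ≤ σ2 - 1 / 2 ∧ |(α j).im| ≤ T) →
      (∀ j, σ1 - 1 / 2 ≤ (β j).re ∧ (β j).re ≤ σ2 - 1 / 2 ∧ |(β j).im| ≤ T) →
      ‖(T : ℂ)⁻¹ * (∫ t in (0 : ℝ)..T, ∏ j, (riemannZeta (1 / 2 + α j + t * I) *
        riemannZeta (1 / 2 + β j - t * I))) - ∑' n : ℕ, DA α n * DA β n / (n : ℂ)‖ ≤
          C * T ^ (-η) := by
  obtain ⟨η, C, hη, hm⟩ := recipe_rel hk h0 h1 h hs h12 hs1
  refine ⟨η, C, hη, fun T hT α β ha hb => ?_⟩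
  have hre : ∀ γ : Fin k → ℂ, (∀ j, σ1 - 1 / 2 ≤ (γ j).re ∧ (γ j).re ≤ σ2 - 1 / 2 ∧ |(γ j).im| ≤ T) →
      ∀ j, 0 ≤ (γ j - ((σ1 - 1 / 2 : ℝ) : ℂ)).re ∧ σ1 + (γ j - ((σ1 - 1 / 2 : ℝ) : ℂ)).re ≤ σ2 ∧
        |(γ j - ((σ1 - 1 / 2 : ℝ) : ℂ)).im| ≤ T := by
    intro γ hγ j
    obtain ⟨g1, g2, g3⟩ := hγ j
    rw [Complex.sub_re, Complex.ofReal_re, Complex.sub_im, Complex.ofReal_im, sub_zero]
    exact ⟨by linarith, by linarith, g3⟩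
  have key := hm T hT (fun j => α j - ((σ1 - 1 / 2 : ℝ) : ℂ)) (fun j => β j - ((σ1 - 1 / 2 : ℝ) : ℂ))
    (hre α ha) (hre β hb)
  have e1 : ∀ t : ℝ, ∏ j, (riemannZeta (σ1 + (α j - ((σ1 - 1 / 2 : ℝ) : ℂ)) + t * I) *
      riemannZeta (σ1 + (β j - ((σ1 - 1 / 2 : ℝ) : ℂ)) - t * I)) =
      ∏ j, (riemannZeta (1 / 2 + α j + t * I) * riemannZeta (1 / 2 + β j - t * I)) := by
    intro t
    refine Finset.prod_congr rfl fun j _ => ?_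
    congr 2
    · push_cast
      ring
    · push_cast
      ring
  have hσ : 1 / 2 < σ1 := by linarith
  have hsum := (M7_summable hk hσ (fun j => (ha j).1) (fun j => (hb j).1)).of_norm
  have e2 : ∑' n : ℕ, DA α n * DA β n / (n : ℂ) =
      ∑' n : ℕ, dT σ1 (fun j => α j - ((σ1 - 1 / 2 : ℝ) : ℂ))
        (fun j => β j - ((σ1 - 1 / 2 : ℝ) : ℂ)) n := by
    rw [hsum.tsum_eq_zero_add]
    simp only [ArithmeticFunction.map_zero, zero_mul, Nat.cast_zero, div_zero, zero_add]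
    exact tsum_congr fun n => M7_term hk σ1 α β n
  simp_rw [e1] at key
  rw [e2]
  exact key

end OL
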